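import Pool.Agent.Helper85.BPM.I1

/-!
MP_3dd6d4_an, module BQ Q9 (helper72): the analytic function of the three lines argument, bounds
before Hölder's inequality in `x` (adapted from helper73's module I1).
-/

set_option autoImplicit false

open MeasureTheory Complex FourierTransform Filter Topology
open scoped ENNReal NNReal ComplexConjugate

noncomputable section

namespace Helper72.BQ.P

open Helper72.BA Helper85.BP Helper85.BP.P

theorem holder0 {Y : Type*} [MeasurableSpace Y] (ν : Measure Y) [IsFiniteMeasure ν]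
    (X : Set ℂ) (hX : MeasurableSet X) (u w : ℂ × Y → ℂ) (hu : Measurable u) (hw : Measurable w)
    (e : ℂ → ℝ≥0∞) (he : Measurable e) (p q : ℝ) (h : ℂ → ℝ≥0∞)
    (hhu : ∀ x, h x = (∫⁻ y, ‖u (x, y)‖ₑ ^ 2 ∂ν) ^ (1/2 : ℝ))
    (heh : ∀ x ∈ X, e x * h x = (h x) ^ (p * (1 - 1 / q))) :
    ∫⁻ s, e s.1 * (‖u s‖ₑ * ‖w s‖ₑ) ∂((volume.restrict X).prod ν) ≤
      ∫⁻ x in X, (∫⁻ y, ‖w (x, y)‖ₑ ^ 2 ∂ν) ^ (1/2 : ℝ) * (h x) ^ (p * (1 - 1 / q)) := by
  have hm1 : Measurable (fun s : ℂ × Y => e s.1 * (‖u s‖ₑ * ‖w s‖ₑ)) :=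
    (he.comp measurable_fst).mul (hu.enorm.mul hw.enorm)
  rw [lintegral_prod _ hm1.aemeasurable]
  set W : ℂ → ℝ≥0∞ := fun x => (∫⁻ y, ‖w (x, y)‖ₑ ^ 2 ∂ν) ^ (1/2 : ℝ) with hW
  have step1 : ∀ x ∈ X, ∫⁻ y, e x * (‖u (x, y)‖ₑ * ‖w (x, y)‖ₑ) ∂ν ≤
      W x * (h x) ^ (p * (1 - 1 / q)) := by
    intro x hx
    rw [lintegral_const_mul _ (by
      exact (hu.comp measurable_prodMk_left).enorm.mul (hw.comp measurable_prodMk_left).enorm)]
    have := I1_sq_rpow_half ν (fun y => u (x, y)) (fun y => w (x, y))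
      (hu.comp measurable_prodMk_left) (hw.comp measurable_prodMk_left)
    rw [← heh x hx]
    calc e x * ∫⁻ y, ‖u (x, y)‖ₑ * ‖w (x, y)‖ₑ ∂ν ≤ e x * (h x * W x) := by
          rw [hhu x]
          gcongr
      _ = W x * (e x * h x) := by ring
  apply lintegral_mono_ae
  exact (ae_restrict_iff' hX).mpr (Eventually.of_forall step1)

theorem interp_G {Y : Type*} [MeasurableSpace Y] (ν : Measure Y) [IsFiniteMeasure ν] (c1 c2 : ℝ)
    (U : ℂ → Y → ℂ) (Ψ : ℂ → ℝ) (hU : UD ν c1 c2 U Ψ) (p p0 p1 θ : ℝ) (hp0 : 1 < p0)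
    (hp01 : p0 < p1) (h0 : 0 < θ) (h1 : θ < 1) (hp : 1 / p = (1 - θ) / p0 + θ / p1) (N : ℝ)
    (hN : 0 < N) (IN : ℝ≥0∞)
    (hIN : IN = ∫⁻ x in {x : ℂ | ‖x‖ ≤ N ∧ ENNReal.ofReal (1 / N) ≤ uH ν U x}, (uH ν U x) ^ p) :
    IN ≠ ∞ ∧ ∃ F : ℂ → ℂ, Differentiable ℂ F ∧
      (∃ C : ℝ, ∀ z : ℂ, 0 ≤ z.re → z.re ≤ 1 → ‖F z‖ ≤ C) ∧ ‖F θ‖ₑ = IN ∧
      (∀ τ : ℝ, ‖F (I * τ)‖ₑ ≤
        ∫⁻ x in {x : ℂ | ‖x‖ ≤ N ∧ ENNReal.ofReal (1 / N) ≤ uH ν U x},
          (∫⁻ y, ‖uW U Ψ (((p / p0 - 1 : ℝ) : ℂ) +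
            I * ((τ * (p * (1 / p1 - 1 / p0)) : ℝ) : ℂ)) x y‖ₑ ^ 2 ∂ν) ^ (1 / 2 : ℝ) *
          (uH ν U x) ^ (p * (1 - 1 / p0))) ∧
      (∀ τ : ℝ, ‖F (1 + I * τ)‖ₑ ≤
        ∫⁻ x in {x : ℂ | ‖x‖ ≤ N ∧ ENNReal.ofReal (1 / N) ≤ uH ν U x},
          (∫⁻ y, ‖uW U Ψ (((p / p1 - 1 : ℝ) : ℂ) +
            I * ((τ * (p * (1 / p1 - 1 / p0)) : ℝ) : ℂ)) x y‖ₑ ^ 2 ∂ν) ^ (1 / 2 : ℝ) *
          (uH ν U x) ^ (p * (1 - 1 / p1))) := by
  have hp1 : 1 < p1 := hp0.trans hp01
  have hinv : 0 < 1 / p := by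
    rw [hp]
    have : 0 < 1 - θ := by linarith
    positivity
  have hppos : 0 < p := one_div_pos.mp hinv
  set X : Set ℂ := {x : ℂ | ‖x‖ ≤ N ∧ ENNReal.ofReal (1 / N) ≤ uH ν U x} with hX
  have hUHm : Measurable (uH ν U) := I1_uH_meas (Ψ := Ψ) hU.meas hU.Ψmeas
  have hXm : MeasurableSet X :=
    (measurableSet_le measurable_norm measurable_const).inter
      (measurableSet_le measurable_const hUHm)
  have hXvol : volume X < ∞ := by
    refine lt_of_le_of_lt (measure_mono ?_) (measure_closedBall_lt_top (x := (0:ℂ)) (r := N))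
    intro x hx
    simpa using hx.1
  obtain ⟨K, hK0, hK⟩ := I1_uH_bdd (ν := ν) hU
  have hUHfin : ∀ x, uH ν U x ≠ ∞ := fun x => ne_top_of_le_ne_top ENNReal.ofReal_ne_top (hK x)
  have hUHpos : ∀ x ∈ X, 0 < uH ν U x := fun x hx =>
    lt_of_lt_of_le (ENNReal.ofReal_pos.mpr (by positivity)) hx.2
  have : IsFiniteMeasure ((volume : Measure ℂ).restrict X) :=
    ⟨by rw [Measure.restrict_apply_univ]; exact hXvol⟩
  have : IsFiniteMeasure ((volume : Measure ℂ).restrict (Ann c1 c2)) :=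
    ⟨by rw [Measure.restrict_apply_univ]; exact I1_Ann_vol c1 c2⟩
  -- finiteness of `IN`
  have hINfin : IN ≠ ∞ := by
    rw [hIN]
    refine ne_top_of_le_ne_top ?_ (setLIntegral_mono' (g := fun _ => ENNReal.ofReal K ^ p) hXm
      (fun x _ => ENNReal.rpow_le_rpow (hK x) hppos.le))
    rw [setLIntegral_const]
    exact ENNReal.mul_ne_top (ENNReal.rpow_ne_top_of_nonneg hppos.le ENNReal.ofReal_ne_top)
      hXvol.ne
  refine ⟨hINfin, ?_⟩
  -- the logarithms
  set l : ℂ → ℝ := X.indicator (fun x => Real.log (uH ν U x).toReal) with hl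
  have hlm : Measurable l := (Real.measurable_log.comp hUHm.ennreal_toReal).indicator hXm
  obtain ⟨BL, hBL0, hBL⟩ := I1_logPsi hU
  have hlX : ∀ x ∈ X, l x = Real.log (uH ν U x).toReal := fun x hx => Set.indicator_of_mem hx _
  have hlb : ∃ Bl : ℝ, 0 ≤ Bl ∧ ∀ x, |l x| ≤ Bl := by
    refine ⟨max |Real.log (1 / N)| |Real.log (max K 1)|, le_max_of_le_left (abs_nonneg _),
      fun x => ?_⟩
    by_cases hx : x ∈ X
    · rw [hlX x hx]
      have hlow : 1 / N ≤ (uH ν U x).toReal := by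
        have := ENNReal.toReal_mono (hUHfin x) hx.2
        rwa [ENNReal.toReal_ofReal (by positivity)] at this
      have hup : (uH ν U x).toReal ≤ max K 1 := by
        have := ENNReal.toReal_mono ENNReal.ofReal_ne_top (hK x)
        rw [ENNReal.toReal_ofReal hK0] at this
        exact this.trans (le_max_left _ _)
      have hNpos : 0 < 1 / N := by positivity
      exact abs_le_max_abs_abs (Real.log_le_log hNpos hlow)
        (Real.log_le_log (hNpos.trans_le hlow) hup)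
    · have : l x = 0 := Set.indicator_of_notMem hx _
      rw [this, abs_zero]
      exact le_max_of_le_left (abs_nonneg _)
  obtain ⟨Bl, hBl0, hBl⟩ := hlb
  set κ : ℝ := p * (1 / p1 - 1 / p0) with hκ
  -- `u`
  set u : ℂ × Y → ℂ := fun s => uW U Ψ 0 s.1 s.2 with hu
  have hum : Measurable u := I1_uW_meas hU.meas hU.Ψmeas 0
  obtain ⟨Cu, hCu0, hCu⟩ := I1_uW_bdd hU 0
  obtain ⟨CU, hCU⟩ := hU.bdd
  -- the data of the analytic function
  set g : (ℂ × Y) × ℂ → ℂ := fun t => ch t.1.1 t.2 * U t.2 t.1.2 * conj (u t.1) with hg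
  have hgm : Measurable g := by
    have h1 : Measurable (fun t : (ℂ × Y) × ℂ => ch t.1.1 t.2) :=
      I1_ch_cont.measurable.comp (measurable_fst.fst.prodMk measurable_snd)
    have h2 : Measurable (fun t : (ℂ × Y) × ℂ => U t.2 t.1.2) :=
      hU.meas.comp (measurable_snd.prodMk measurable_fst.snd)
    have h3 : Measurable (fun t : (ℂ × Y) × ℂ => conj (u t.1)) :=
      Complex.continuous_conj.measurable.comp (hum.comp measurable_fst)
    exact (h1.mul h2).mul h3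
  have hgb : ∀ t, ‖g t‖ ≤ max CU 0 * Cu := by
    intro t
    rw [hg]
    simp only
    rw [norm_mul, norm_mul, I1_norm_ch, one_mul, Complex.norm_conj]
    exact mul_le_mul ((hCU _ _).trans (le_max_left _ _)) (hCu _ _) (norm_nonneg _)
      (le_max_right _ _)
  set a : (ℂ × Y) × ℂ → ℝ := fun t => κ * (Real.log (Ψ t.2) - l t.1.1) with ha
  set b : (ℂ × Y) × ℂ → ℝ := fun t => (p / p0 - 1) * Real.log (Ψ t.2) +
    (p - p / p0 - 1) * l t.1.1 with hb
  have hLm : Measurable (fun t : (ℂ × Y) × ℂ => Real.log (Ψ t.2)) :=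
    Real.measurable_log.comp (hU.Ψmeas.comp measurable_snd)
  have hl1m : Measurable (fun t : (ℂ × Y) × ℂ => l t.1.1) := hlm.comp measurable_fst.fst
  have ham : Measurable a := (hLm.sub hl1m).const_mul κ
  have hbm : Measurable b := (hLm.const_mul _).add (hl1m.const_mul _)
  have hab : ∀ t, |a t| ≤ |κ| * (BL + Bl) := by
    intro t
    rw [ha]
    simp only
    rw [abs_mul]
    apply mul_le_mul_of_nonneg_left _ (abs_nonneg _)
    exact (abs_sub _ _).trans (add_le_add (hBL _) (hBl _))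
  have hbb : ∀ t, |b t| ≤ |p / p0 - 1| * BL + |p - p / p0 - 1| * Bl := by
    intro t
    rw [hb]
    simp only
    refine (abs_add_le _ _).trans (add_le_add ?_ ?_)
    · rw [abs_mul]
      exact mul_le_mul_of_nonneg_left (hBL _) (abs_nonneg _)
    · rw [abs_mul]
      exact mul_le_mul_of_nonneg_left (hBl _) (abs_nonneg _)
  set M2 : Measure (ℂ × Y) := ((volume : Measure ℂ).restrict X).prod ν with hM2
  set P : Measure ((ℂ × Y) × ℂ) := M2.prod ((volume : Measure ℂ).restrict (Ann c1 c2)) with hP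
  set F : ℂ → ℂ := fun z => ∫ t, g t * Complex.exp (z * (a t : ℂ) + (b t : ℂ)) ∂P with hF
  have hFdiff : Differentiable ℂ F := I1_entire P g a b hgm ham hbm _ _ _ hgb hab hbb
  have hFbdd : ∃ C : ℝ, ∀ z : ℂ, 0 ≤ z.re → z.re ≤ 1 → ‖F z‖ ≤ C :=
    ⟨_, fun z hz0 hz1 => I1_bdd P g a b _ _ _ (by positivity) (by positivity) hgb hab hbb z
      hz0 hz1⟩
  -- exponents
  set al : ℂ → ℂ := fun z => z * (κ : ℂ) + ((p / p0 - 1 : ℝ) : ℂ) with hal
  set ka : ℂ → ℂ := fun z => -(z * (κ : ℂ)) + ((p - p / p0 - 1 : ℝ) : ℂ) with hka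
  -- Fubini
  have hFub : ∀ z, F z = ∫ s, conj (u s) * Complex.exp (ka z * (l s.1 : ℂ)) *
      uW U Ψ (al z) s.1 s.2 ∂M2 := by
    intro z
    rw [hF]
    simp only
    have hint : Integrable (fun t => g t * Complex.exp (z * (a t : ℂ) + (b t : ℂ))) P := by
      have hm : Measurable (fun t => g t * Complex.exp (z * (a t : ℂ) + (b t : ℂ))) := by
        fun_prop
      apply Integrable.of_bound hm.aestronglyMeasurable (max CU 0 * Cu *
        Real.exp (|z.re| * (|κ| * (BL + Bl)) + (|p / p0 - 1| * BL + |p - p / p0 - 1| * Bl)))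
      refine Eventually.of_forall (fun t => ?_)
      rw [norm_mul]
      exact mul_le_mul (hgb t) (I1_norm_exp_le _ _ _ _ (hab t) (hbb t) z) (norm_nonneg _)
        (by positivity)
    rw [hP, integral_prod _ hint]
    apply integral_congr_ae
    refine Eventually.of_forall (fun s => ?_)
    simp only
    rw [← I1_uW_set hU (al z) s.1 s.2, ← integral_const_mul]
    apply integral_congr_ae
    refine Eventually.of_forall (fun ξ => ?_)
    simp only
    rw [hg, ha, hb, hal, hka]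
    simp only
    have hexp : Complex.exp (z * ((κ * (Real.log (Ψ ξ) - l s.1) : ℝ) : ℂ) +
        (((p / p0 - 1) * Real.log (Ψ ξ) + (p - p / p0 - 1) * l s.1 : ℝ) : ℂ)) =
        Complex.exp ((-(z * (κ : ℂ)) + ((p - p / p0 - 1 : ℝ) : ℂ)) * (l s.1 : ℂ)) *
        Complex.exp ((z * (κ : ℂ) + ((p / p0 - 1 : ℝ) : ℂ)) * (Real.log (Ψ ξ) : ℂ)) := by
      rw [← Complex.exp_add]
      congr 1
      push_cast
      ring
    rw [hexp]
    ring
  -- the bound on a vertical line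
  have key : ∀ (z : ℂ) (q : ℝ), 1 < q → (ka z).re = p * (1 - 1 / q) - 1 →
      ‖F z‖ₑ ≤ ∫⁻ x in X, (∫⁻ y, ‖uW U Ψ (al z) x y‖ₑ ^ 2 ∂ν) ^ (1 / 2 : ℝ) *
        (uH ν U x) ^ (p * (1 - 1 / q)) := by
    intro z q hq hre
    rw [hFub z]
    refine (enorm_integral_le_lintegral_enorm _).trans ?_
    have hwm : Measurable (fun s : ℂ × Y => uW U Ψ (al z) s.1 s.2) :=
      I1_uW_meas hU.meas hU.Ψmeas (al z)
    have hem : Measurable (fun x : ℂ =>
        ENNReal.ofReal (Real.exp ((p * (1 - 1 / q) - 1) * l x))) := by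
      fun_prop
    have hH := holder0 ν X hXm u (fun s : ℂ × Y => uW U Ψ (al z) s.1 s.2) hum hwm
      (fun x : ℂ => ENNReal.ofReal (Real.exp ((p * (1 - 1 / q) - 1) * l x))) hem p q
      (uH ν U) (fun x => I1_uH_eq (Ψ := Ψ) x) (fun x hx => by
        rw [hlX x hx, I1_exp_log _ (hUHpos x hx) (hUHfin x)]
        conv_lhs => rw [← ENNReal.rpow_one (uH ν U x), ← ENNReal.rpow_mul, one_mul]
        rw [← ENNReal.rpow_add _ _ (hUHpos x hx).ne' (hUHfin x)]
        congr 1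
        ring)
    refine le_trans (le_of_eq ?_) hH
    apply lintegral_congr
    intro s
    rw [enorm_mul, enorm_mul, I1_exp_enorm _ _ _ hre]
    have : ‖conj (u s)‖ₑ = ‖u s‖ₑ := by
      rw [← ofReal_norm, Complex.norm_conj, ofReal_norm]
    rw [this]
    ring
  refine ⟨F, hFdiff, hFbdd, ?_, ?_, ?_⟩
  · -- the value at `θ`
    have hpne : p ≠ 0 := hppos.ne'
    have hid : p * ((1 - θ) / p0 + θ / p1) = 1 := by
      rw [← hp]
      field_simp
    have hκθ : θ * κ + (p / p0 - 1) = 0 := by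
      rw [hκ]
      have e : p * ((1 - θ) / p0 + θ / p1) = θ * (p * (1 / p1 - 1 / p0)) + p / p0 := by ring
      linarith
    have hal0 : al (θ : ℂ) = 0 := by
      rw [hal]
      simp only
      have : (θ : ℂ) * (κ : ℂ) + ((p / p0 - 1 : ℝ) : ℂ) = ((θ * κ + (p / p0 - 1) : ℝ) : ℂ) := by
        push_cast
        ring
      rw [this, hκθ]
      simp
    have hka0 : ka (θ : ℂ) = ((p - 2 : ℝ) : ℂ) := by
      rw [hka]
      simp only
      have : -((θ : ℂ) * (κ : ℂ)) + ((p - p / p0 - 1 : ℝ) : ℂ) =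
          ((-(θ * κ) + (p - p / p0 - 1) : ℝ) : ℂ) := by
        push_cast
        ring
      rw [this]
      congr 1
      linarith
    rw [hFub, hal0, hka0]
    have hptw : ∀ s : ℂ × Y, conj (u s) * Complex.exp (((p - 2 : ℝ) : ℂ) * (l s.1 : ℂ)) *
        uW U Ψ 0 s.1 s.2 = ((‖u s‖ ^ 2 * Real.exp ((p - 2) * l s.1) : ℝ) : ℂ) := by
      intro s
      have h1 : conj (u s) * u s = ((‖u s‖ ^ 2 : ℝ) : ℂ) := by
        rw [Complex.conj_mul']
        push_cast
        rfl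
      have h2 : Complex.exp (((p - 2 : ℝ) : ℂ) * (l s.1 : ℂ)) =
          ((Real.exp ((p - 2) * l s.1) : ℝ) : ℂ) := by
        push_cast
        rfl
      have h3 : uW U Ψ 0 s.1 s.2 = u s := rfl
      rw [h3, h2]
      push_cast at h1 ⊢
      rw [← h1]
      ring
    simp only [hptw]
    rw [integral_complex_ofReal]
    have hmr : Measurable (fun s : ℂ × Y => ‖u s‖ ^ 2 * Real.exp ((p - 2) * l s.1)) := by
      have : Measurable (fun s : ℂ × Y => l s.1) := hlm.comp measurable_fst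
      fun_prop
    have hintr : Integrable (fun s : ℂ × Y => ‖u s‖ ^ 2 * Real.exp ((p - 2) * l s.1)) M2 := by
      apply Integrable.of_bound hmr.aestronglyMeasurable (Cu ^ 2 * Real.exp (|p - 2| * Bl))
      refine Eventually.of_forall (fun s => ?_)
      rw [Real.norm_eq_abs, abs_of_nonneg (by positivity)]
      apply mul_le_mul _ _ (by positivity) (by positivity)
      · exact pow_le_pow_left₀ (norm_nonneg _) (hCu _ _) 2
      · apply Real.exp_le_exp.mpr
        calc (p - 2) * l s.1 ≤ |(p - 2) * l s.1| := le_abs_self _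
          _ = |p - 2| * |l s.1| := abs_mul _ _
          _ ≤ |p - 2| * Bl := mul_le_mul_of_nonneg_left (hBl _) (abs_nonneg _)
    have hnn : ∀ s : ℂ × Y, 0 ≤ ‖u s‖ ^ 2 * Real.exp ((p - 2) * l s.1) := fun s => by positivity
    have hI0 : 0 ≤ ∫ s, ‖u s‖ ^ 2 * Real.exp ((p - 2) * l s.1) ∂M2 := integral_nonneg hnn
    have e1 : ‖(((∫ s, ‖u s‖ ^ 2 * Real.exp ((p - 2) * l s.1) ∂M2 : ℝ)) : ℂ)‖ₑ =
        ∫⁻ s, ENNReal.ofReal (‖u s‖ ^ 2 * Real.exp ((p - 2) * l s.1)) ∂M2 := by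
      rw [← ofReal_norm, Complex.norm_real, Real.norm_of_nonneg hI0]
      exact ofReal_integral_eq_lintegral_ofReal hintr (Eventually.of_forall hnn)
    refine e1.trans ?_
    rw [hM2, lintegral_prod _ hmr.ennreal_ofReal.aemeasurable, hIN]
    apply lintegral_congr_ae
    refine (ae_restrict_iff' hXm).mpr (Eventually.of_forall (fun x hx => ?_))
    have e2 : ∀ y, ENNReal.ofReal (‖u (x, y)‖ ^ 2 * Real.exp ((p - 2) * l x)) =
        (uH ν U x) ^ (p - 2) * ‖uW U Ψ 0 x y‖ₑ ^ 2 := by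
      intro y
      rw [ENNReal.ofReal_mul (by positivity), hlX x hx,
        I1_exp_log _ (hUHpos x hx) (hUHfin x), mul_comm,
        ENNReal.ofReal_pow (norm_nonneg _), ofReal_norm]
    simp only [e2]
    have hmy : Measurable (fun y : Y => ‖uW U Ψ 0 x y‖ₑ ^ 2) :=
      (hum.comp (measurable_prodMk_left (x := x))).enorm.pow_const 2
    rw [lintegral_const_mul _ hmy]
    have e3 : ∫⁻ y, ‖uW U Ψ 0 x y‖ₑ ^ 2 ∂ν = (uH ν U x) ^ (2:ℝ) := by
      rw [I1_uH_eq (Ψ := Ψ), ← ENNReal.rpow_mul]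
      norm_num
    rw [e3, ← ENNReal.rpow_add _ _ (hUHpos x hx).ne' (hUHfin x)]
    congr 1
    ring
  · intro τ
    have e1 : al (I * τ) = ((p / p0 - 1 : ℝ) : ℂ) + I * ((τ * κ : ℝ) : ℂ) := by
      rw [hal]
      push_cast
      ring
    have h := key (I * τ) p0 hp0 (by
      rw [hka]
      simp
      ring)
    rwa [e1] at h
  · intro τ
    have e1 : al (1 + I * τ) = ((p / p1 - 1 : ℝ) : ℂ) + I * ((τ * κ : ℝ) : ℂ) := by
      rw [hal, hκ]
      push_cast
      ring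
    have h := key (1 + I * τ) p1 hp1 (by
      rw [hka, hκ]
      simp
      ring)
    rwa [e1] at h

end Helper72.BQ.P
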