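import Mathlib

/-!
MP_3dd6d4_an, module BQ (helper72): Cauchy–Schwarz in `τ`, Hölder in `x`.
-/

set_option autoImplicit false

open MeasureTheory Complex Filter Topology
open scoped ENNReal NNReal

noncomputable section

namespace Helper72.BQ.P

theorem line_bound (X : Set ℂ) (hX : MeasurableSet X) (P p : ℝ) (hP : 1 < P)
    (h : ℂ → ℝ≥0∞) (hh : Measurable h) (v : ℝ → ℂ → ℝ≥0∞) (hv : Measurable (Function.uncurry v))
    (q a G : ℝ → ℝ≥0∞) (hq : Measurable q) (ha : Measurable a) (m C : ℝ≥0∞)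
    (hm : ∫⁻ τ, q τ = m) (hm0 : m ≠ 0) (hmt : m ≠ ∞)
    (hG : ∀ τ, G τ ≤ a τ * ∫⁻ x in X, v τ x * h x ^ (p * (1 - 1 / P)))
    (hT : ∫⁻ x, (∫⁻ τ, q τ * a τ ^ 2 * v τ x ^ 2) ^ (P / 2) ≤ m ^ (P / 2) * C) :
    m⁻¹ * ∫⁻ τ, q τ * G τ ≤ C ^ (1 / P) * (∫⁻ x in X, h x ^ p) ^ (1 - 1 / P) := by
  have hP0 : 0 < P := by linarith
  have hvm : ∀ τ, Measurable (v τ) := fun τ => hv.comp measurable_prodMk_left
  have hvm' : ∀ x, Measurable (fun τ => v τ x) := fun x => hv.comp measurable_prodMk_right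
  set r : ℝ := p * (1 - 1 / P) with hr
  have hhr : Measurable (fun x => h x ^ r) := hh.pow_const r
  set w : ℂ → ℝ≥0∞ := fun x => ∫⁻ τ, q τ * a τ ^ 2 * v τ x ^ 2 with hw
  have hwm : Measurable w := by
    have : Measurable (fun z : ℝ × ℂ => q z.1 * a z.1 ^ 2 * v z.1 z.2 ^ 2) :=
      ((hq.comp measurable_fst).mul ((ha.comp measurable_fst).pow_const 2)).mul (hv.pow_const 2)
    exact this.lintegral_prod_left'
  -- Tonelli
  have h1 : ∫⁻ τ, q τ * G τ ≤ ∫⁻ x in X, (∫⁻ τ, q τ * a τ * v τ x) * h x ^ r := by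
    calc ∫⁻ τ, q τ * G τ ≤ ∫⁻ τ, ∫⁻ x in X, q τ * a τ * (v τ x * h x ^ r) := by
          refine lintegral_mono fun τ => ?_
          have m1 : Measurable (fun x => v τ x * h x ^ r) := (hvm τ).mul hhr
          rw [lintegral_const_mul _ m1, mul_assoc]
          exact mul_le_mul_right (hG τ) _
      _ = ∫⁻ x in X, ∫⁻ τ, q τ * a τ * (v τ x * h x ^ r) := by
          apply lintegral_lintegral_swap
          have : Measurable (fun z : ℝ × ℂ => q z.1 * a z.1 * (v z.1 z.2 * h z.2 ^ r)) :=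
            ((hq.comp measurable_fst).mul (ha.comp measurable_fst)).mul
              (hv.mul (hhr.comp measurable_snd))
          exact this.aemeasurable
      _ = ∫⁻ x in X, (∫⁻ τ, q τ * a τ * v τ x) * h x ^ r := by
          refine lintegral_congr fun x => ?_
          have m1 : Measurable (fun τ => q τ * a τ * v τ x) := (hq.mul ha).mul (hvm' x)
          rw [← lintegral_mul_const _ m1]
          refine lintegral_congr fun τ => ?_
          ring
  -- Cauchy–Schwarz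
  have h2 : ∀ x, ∫⁻ τ, q τ * a τ * v τ x ≤ m ^ (1 / 2 : ℝ) * w x ^ (1 / 2 : ℝ) := by
    intro x
    have hcs := ENNReal.lintegral_mul_le_Lp_mul_Lq volume (p := 2) (q := 2)
      (by constructor <;> norm_num) (f := fun τ => q τ ^ (1 / 2 : ℝ))
      (g := fun τ => q τ ^ (1 / 2 : ℝ) * (a τ * v τ x))
      (hq.pow_const _).aemeasurable ((hq.pow_const _).mul (ha.mul (hvm' x))).aemeasurable
    have e2 : ∀ c : ℝ≥0∞, c ^ (2:ℝ) = c ^ 2 := fun c => by
      rw [← ENNReal.rpow_natCast]; norm_num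
    have e3 : ∀ c : ℝ≥0∞, c ^ (1 / 2 : ℝ) * c ^ (1 / 2 : ℝ) = c := fun c => by
      rw [← ENNReal.rpow_add_of_nonneg _ _ (by norm_num) (by norm_num)]
      norm_num
    have e4 : ∀ τ, (fun τ => q τ ^ (1 / 2 : ℝ)) τ * (fun τ => q τ ^ (1 / 2 : ℝ) * (a τ * v τ x)) τ =
        q τ * a τ * v τ x := by
      intro τ
      simp only
      rw [← mul_assoc, e3, mul_assoc]
    have e5 : ∀ τ, (q τ ^ (1 / 2 : ℝ)) ^ (2:ℝ) = q τ := by
      intro τ
      rw [← ENNReal.rpow_mul]; norm_num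
    have e6 : ∀ τ, (q τ ^ (1 / 2 : ℝ) * (a τ * v τ x)) ^ (2:ℝ) = q τ * a τ ^ 2 * v τ x ^ 2 := by
      intro τ
      rw [ENNReal.mul_rpow_of_nonneg _ _ (by norm_num), e5, e2, mul_pow]
      ring
    simp only [Pi.mul_apply] at hcs
    simp only [e4, e5, e6] at hcs
    rw [hm] at hcs
    exact hcs
  -- Hölder
  set P' : ℝ := P / (P - 1) with hP'
  have hq1 : P - 1 ≠ 0 := by linarith
  have hinv : 1 / P' = 1 - 1 / P := by
    rw [hP']
    field_simp
  have hconj : P.HolderConjugate P' := Real.HolderConjugate.conjExponent hP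
  have h3 := ENNReal.lintegral_mul_le_Lp_mul_Lq (volume.restrict X) hconj
    (f := fun x => w x ^ (1 / 2 : ℝ)) (g := fun x => h x ^ r)
    (hwm.pow_const _).aemeasurable hhr.aemeasurable
  simp only [Pi.mul_apply] at h3
  have e7 : ∀ x, (w x ^ (1 / 2 : ℝ)) ^ P = w x ^ (P / 2) := by
    intro x
    rw [← ENNReal.rpow_mul]
    congr 1
    ring
  have e8 : ∀ x, (h x ^ r) ^ P' = h x ^ p := by
    intro x
    rw [← ENNReal.rpow_mul]
    congr 1
    rw [hr, ← hinv, mul_assoc]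
    have : 1 / P' * P' = 1 := by
      have : P' ≠ 0 := by
        rw [hP']
        exact div_ne_zero hP0.ne' hq1
      field_simp
    rw [this, mul_one]
  simp only [e7, e8] at h3
  rw [hinv] at h3
  have h4 : (∫⁻ x in X, w x ^ (P / 2)) ^ (1 / P) ≤ m ^ (1 / 2 : ℝ) * C ^ (1 / P) := by
    calc (∫⁻ x in X, w x ^ (P / 2)) ^ (1 / P) ≤ (m ^ (P / 2) * C) ^ (1 / P) := by
          apply ENNReal.rpow_le_rpow _ (by positivity)
          exact (setLIntegral_le_lintegral _ _).trans hT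
      _ = m ^ (1 / 2 : ℝ) * C ^ (1 / P) := by
          rw [ENNReal.mul_rpow_of_nonneg _ _ (by positivity), ← ENNReal.rpow_mul]
          congr 2
          field_simp
  have e9 : m ^ (1 / 2 : ℝ) * m ^ (1 / 2 : ℝ) = m := by
    rw [← ENNReal.rpow_add_of_nonneg _ _ (by norm_num) (by norm_num)]
    norm_num
  calc m⁻¹ * ∫⁻ τ, q τ * G τ
      ≤ m⁻¹ * ∫⁻ x in X, m ^ (1 / 2 : ℝ) * (w x ^ (1 / 2 : ℝ) * h x ^ r) := by
        refine mul_le_mul_right (h1.trans (lintegral_mono fun x => ?_)) _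
        rw [← mul_assoc]
        exact mul_le_mul_left (h2 x) _
    _ = m⁻¹ * (m ^ (1 / 2 : ℝ) * ∫⁻ x in X, w x ^ (1 / 2 : ℝ) * h x ^ r) := by
        rw [lintegral_const_mul' _ _ (ENNReal.rpow_ne_top_of_nonneg (by norm_num) hmt)]
    _ ≤ m⁻¹ * (m ^ (1 / 2 : ℝ) * ((m ^ (1 / 2 : ℝ) * C ^ (1 / P)) *
          (∫⁻ x in X, h x ^ p) ^ (1 - 1 / P))) := by
        gcongr
        exact h3.trans (mul_le_mul_left h4 _)
    _ = (m⁻¹ * (m ^ (1 / 2 : ℝ) * m ^ (1 / 2 : ℝ))) *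
          (C ^ (1 / P) * (∫⁻ x in X, h x ^ p) ^ (1 - 1 / P)) := by
        generalize m ^ (1 / 2 : ℝ) = b
        ring
    _ = _ := by rw [e9, ENNReal.inv_mul_cancel hm0 hmt, one_mul]

end Helper72.BQ.P
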