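import Pool.Agent.Helper72.BQ.Defs
import Pool.Agent.Helper85.BS_G
import Pool.Agent.Helper85.BS_P

/-!
# BQ modules Q7a, Q7b (MP_3dd6d4_an, helper85)
-/

set_option autoImplicit false

open MeasureTheory Complex FourierTransform Filter Topology
open scoped ENNReal NNReal ComplexConjugate

noncomputable section

namespace Helper72.BQ.P

open Helper72.BA Helper85.BP Helper72.BQ

theorem As_eq_Gx (s : ℂ) : As s = (Real.pi : ℂ)⁻¹ * Gx (2 * s) := by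
  unfold As Gx
  have hpi : (Real.pi : ℂ) ≠ 0 := by exact_mod_cast Real.pi_ne_zero
  rw [show 2 * s / 2 = s by ring]
  field_simp

/-- growth of the factor -/
theorem As_inv_growth (a : ℝ) (ha : 0 < a) : ∃ C : ℝ, ∀ s : ℂ, a ≤ s.re → s.re ≤ 1 / 2 →
    DifferentiableAt ℂ (fun s => (As s)⁻¹) s ∧ As s ≠ 0 ∧ ‖(As s)⁻¹‖ ≤ C * (1 + |s.im|) := by
  obtain ⟨C, hC, h⟩ := Helper85.BS.Gx_inv_bound (2 * a) (by linarith)
  have hpi : (Real.pi : ℂ) ≠ 0 := by exact_mod_cast Real.pi_ne_zero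
  refine ⟨Real.pi * C * 2, fun s h1 h2 => ?_⟩
  have r1 : (2 * s).re = 2 * s.re := by simp
  have i1 : (2 * s).im = 2 * s.im := by simp
  have e : (fun s => (As s)⁻¹) = fun s => (Real.pi : ℂ) * (Gx (2 * s))⁻¹ := by
    funext s
    rw [As_eq_Gx, mul_inv, inv_inv]
  refine ⟨?_, ?_, ?_⟩
  · rw [e]
    apply DifferentiableAt.const_mul
    have h3 : DifferentiableAt ℂ (fun a => (Gx a)⁻¹) (2 * s) :=
      Helper85.BS.Gx_inv_diff (by rw [r1]; linarith) (by rw [r1]; linarith)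
    exact DifferentiableAt.comp (f := fun s : ℂ => 2 * s) (g := fun a => (Gx a)⁻¹) s h3
      (by fun_prop)
  · rw [As_eq_Gx]
    exact mul_ne_zero (inv_ne_zero hpi)
      (Helper85.BP.P.Gx_ne (by rw [r1]; linarith) (by rw [r1]; linarith))
  · have h3 := h (2 * s) (by rw [r1]; linarith) (by rw [r1]; linarith)
    rw [As_eq_Gx, mul_inv, inv_inv, norm_mul, Complex.norm_real, Real.norm_eq_abs,
      abs_of_pos Real.pi_pos]
    rw [i1, abs_mul, abs_two] at h3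
    calc Real.pi * ‖(Gx (2 * s))⁻¹‖ ≤ Real.pi * (C * (1 + 2 * |s.im|)) := by
          gcongr
      _ ≤ Real.pi * (C * (2 * (1 + |s.im|))) := by
          gcongr
          linarith
      _ = _ := by ring

/-- Poisson inequality, polynomial growth -/
theorem poisson_growth (θ : ℝ) (h0 : 0 < θ) (h1 : θ < 1) (H : ℂ → ℂ)
    (hc : ContinuousOn H {z : ℂ | 0 ≤ z.re ∧ z.re ≤ 1})
    (hd : DifferentiableOn ℂ H {z : ℂ | 0 < z.re ∧ z.re < 1})
    (C : ℝ) (hb : ∀ z : ℂ, 0 ≤ z.re → z.re ≤ 1 → ‖H z‖ ≤ C * (1 + |z.im|)) :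
    ‖H θ‖ₑ ≤
      ((ENNReal.ofReal (1 - θ))⁻¹ * ∫⁻ τ : ℝ, ENNReal.ofReal (P0 θ τ) * ‖H (I * τ)‖ₑ) ^ (1 - θ) *
      ((ENNReal.ofReal θ)⁻¹ * ∫⁻ τ : ℝ, ENNReal.ofReal (P1 θ τ) * ‖H (1 + I * τ)‖ₑ) ^ θ := by
  have hC0 : 0 ≤ C := by
    have h := (norm_nonneg (H 0)).trans (hb 0 (by simp) (by simp))
    simpa using h
  refine Helper85.BS.poisson_mul4 θ h0 h1 H hc hd C (fun z hz0 hz1 => (hb z hz0 hz1).trans ?_)
  gcongr
  have h2 : 1 ≤ 1 + |z.im| := by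
    have := abs_nonneg z.im
    linarith
  calc 1 + |z.im| = (1 + |z.im|) ^ 1 := (pow_one _).symm
    _ ≤ (1 + |z.im|) ^ 4 := pow_le_pow_right₀ h2 (by norm_num)

end Helper72.BQ.P
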