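import Pool.Agent.Helper72.BQM.K
import Pool.Agent.Helper72.BQM.G
import Pool.Agent.Helper72.BQM.L
import Pool.Agent.Helper72.BQM.Q6c
import Pool.Agent.Helper72.BQM.Q7
import Pool.Agent.Helper85.BPM.I2b

/-!
MP_3dd6d4_an, module BQ (helper72): the sharp Pitt inequality for real exponents, core estimate.
-/

set_option autoImplicit false

open MeasureTheory Complex FourierTransform Filter Topology
open scoped ENNReal NNReal ComplexConjugate

noncomputable section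

namespace Helper72.BQ.P

open Helper72.BA Helper85.BP Helper85.BP.P

theorem As_conj_norm (a y : ℝ) : ‖As ((a : ℂ) + I * ((-y : ℝ) : ℂ))‖ = ‖As ((a : ℂ) + I * (y : ℂ))‖ := by
  have h : ((a : ℂ) + I * ((-y : ℝ) : ℂ)) = conj ((a : ℂ) + I * (y : ℂ)) := by
    simp
  rw [h]
  unfold As
  rw [norm_div, norm_div, Complex.Gamma_conj, Complex.norm_conj]
  congr 1
  have h2 : (1 : ℂ) - conj ((a : ℂ) + I * (y : ℂ)) = conj (1 - ((a : ℂ) + I * (y : ℂ))) := by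
    simp
  rw [h2, Complex.Gamma_conj, Complex.norm_conj]

theorem Gx_As (a : ℂ) : Gx a = Real.pi * As (a / 2) := by
  unfold Gx As
  rw [mul_div_assoc]

theorem Ap_pos (p : ℝ) (hp : 1 < p) : 0 < Ap p := by
  unfold Ap
  have h1 : 0 < 1 / p := by positivity
  have h2 : 1 / p < 1 := by rw [div_lt_one (by linarith)]; exact hp
  exact div_pos (Real.Gamma_pos_of_pos h1) (Real.Gamma_pos_of_pos (by linarith))

theorem As_real (p : ℝ) : As ((1 / p : ℝ) : ℂ) = ((Ap p : ℝ) : ℂ) := by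
  unfold As Ap
  have : (1 : ℂ) - ((1 / p : ℝ) : ℂ) = ((1 - 1 / p : ℝ) : ℂ) := by push_cast; ring
  rw [this, Complex.Gamma_ofReal, Complex.Gamma_ofReal]
  push_cast
  rfl

section core

variable {Y : Type*} [MeasurableSpace Y] {ν : Measure Y} [IsFiniteMeasure ν]

/-- line `Re z = j`, exponent `P = 2K`, `K ≥ 2` -/
theorem line_T {c1 c2 : ℝ} {U : ℂ → Y → ℂ} {Ψ : ℂ → ℝ} (hU : UD ν c1 c2 U Ψ) (K : ℕ) (hK : 2 ≤ K)
    (m : ℝ) (hm : m = 1 ∨ 2 ≤ m) (θ : ℝ) (h0 : 0 < θ) (h1 : θ < 1) (p : ℝ) (hp : 0 < p) (κ : ℝ)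
    (hκ : κ = -(p / (2 * K * m))) :
    ∫⁻ x : ℂ, (∫⁻ τ : ℝ, ENNReal.ofReal (P1 θ τ) *
        (‖As (((1 / (2 * K : ℝ) : ℝ) : ℂ) + I * ((-(τ / (2 * K * m)) : ℝ) : ℂ))‖ₑ⁻¹) ^ 2 *
        ((∫⁻ y, ‖uW U Ψ (((p / (2 * K) - 1 : ℝ) : ℂ) + I * ((τ * κ : ℝ) : ℂ)) x y‖ₑ ^ 2 ∂ν) ^
          (1 / 2 : ℝ)) ^ 2) ^ ((2 * K : ℝ) / 2) ≤
      ENNReal.ofReal θ ^ ((2 * K : ℝ) / 2) * (ENNReal.ofReal (Real.pi ^ ((2 * K : ℝ) - 2)) *
        ∫⁻ ξ in Ann c1 c2, ENNReal.ofReal ((‖ξ‖ ^ 4)⁻¹ * Ψ ξ ^ p)) := by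
  have hK2 : (2:ℝ) ≤ K := by exact_mod_cast hK
  have hK0 : (0:ℝ) < K := by linarith
  have hm0 : 0 < m := by rcases hm with h | h <;> linarith
  have hpi := Real.pi_pos
  obtain ⟨-, hc1, -, hP1, -, -, -⟩ := P_facts θ h0 h1
  obtain ⟨-, hi1⟩ := P_int θ h0 h1 0
  simp only [pow_zero, one_mul] at hi1
  obtain ⟨-, hm1⟩ := P_mass θ h0 h1
  set W : ℝ → ℝ := fun τ => P1 θ τ *
      (‖As (((1 / (2 * K : ℝ) : ℝ) : ℂ) + I * ((τ / (2 * K * m) : ℝ) : ℂ))‖ ^ 2)⁻¹ with hWdef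
  have hW : Adm (1 / m) W := adm_sharp (2 * K) m θ (by linarith) hm h0 h1
  have hU' := UD_mod hU (p / (2 * K)) (by positivity)
  have hkey := key_sharp ν K hK (1 / m) (by positivity) W hW c1 c2 _ _ hU'
  -- positivity of `As`
  have hAs : ∀ τ : ℝ, 0 < ‖As (((1 / (2 * K : ℝ) : ℝ) : ℂ) + I * ((τ / (2 * K * m) : ℝ) : ℂ))‖ := by
    intro τ
    obtain ⟨C, hC⟩ := As_inv_growth (1 / (2 * K : ℝ)) (by positivity)
    have hre : (((1 / (2 * K : ℝ) : ℝ) : ℂ) + I * ((τ / (2 * K * m) : ℝ) : ℂ)).re = 1 / (2 * K) := by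
      simp only [Complex.add_re, Complex.mul_re, Complex.ofReal_re, Complex.ofReal_im,
        Complex.I_re, Complex.I_im]
      ring
    have := (hC (((1 / (2 * K : ℝ) : ℝ) : ℂ) + I * ((τ / (2 * K * m) : ℝ) : ℂ)) hre.ge (by
      rw [hre, div_le_div_iff₀ (by positivity) (by norm_num)]
      linarith)).2.1
    exact norm_pos_iff.2 this
  -- the constant
  have hcW : cW K (1 / m) W = Real.pi ^ 2 * θ := by
    unfold cW
    rw [← hm1, ← integral_const_mul]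
    refine integral_congr_ae (Eventually.of_forall fun τ => ?_)
    simp only [hWdef]
    have e : ((((1 / (K:ℝ) : ℝ) : ℂ) + I * ((1 / m * τ / K : ℝ) : ℂ))) / 2 =
        ((1 / (2 * K : ℝ) : ℝ) : ℂ) + I * ((τ / (2 * K * m) : ℝ) : ℂ) := by
      push_cast
      field_simp
    rw [Gx_As, e, norm_mul, mul_pow, Complex.norm_real, Real.norm_of_nonneg hpi.le]
    have h := (hAs τ).ne'
    field_simp
  rw [hcW] at hkey
  -- rewriting the right-hand side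
  have hS' : ∫⁻ ξ in Ann c1 c2, ENNReal.ofReal ((‖ξ‖ ^ 4)⁻¹ * (Ψ ξ ^ (p / (2 * K : ℝ))) ^ (2 * K)) =
      ∫⁻ ξ in Ann c1 c2, ENNReal.ofReal ((‖ξ‖ ^ 4)⁻¹ * Ψ ξ ^ p) := by
    refine lintegral_congr fun ξ => ?_
    congr 2
    rw [← Real.rpow_natCast, ← Real.rpow_mul (UD.pos hU ξ).le]
    congr 1
    push_cast
    field_simp
  rw [hS'] at hkey
  -- rewriting the left-hand side
  have hL : ∀ x : ℂ, (∫⁻ τ : ℝ, ENNReal.ofReal (P1 θ τ) *
        (‖As (((1 / (2 * K : ℝ) : ℝ) : ℂ) + I * ((-(τ / (2 * K * m)) : ℝ) : ℂ))‖ₑ⁻¹) ^ 2 *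
        ((∫⁻ y, ‖uW U Ψ (((p / (2 * K) - 1 : ℝ) : ℂ) + I * ((τ * κ : ℝ) : ℂ)) x y‖ₑ ^ 2 ∂ν) ^
          (1 / 2 : ℝ)) ^ 2) ^ ((2 * K : ℝ) / 2) =
      (∫⁻ τ : ℝ, ENNReal.ofReal (W τ) *
        ∫⁻ y, ‖uW (Up U Ψ (p / (2 * K) - 1)) (fun ξ => Ψ ξ ^ (p / (2 * K : ℝ)))
          (-(I * ((1 / m * τ : ℝ) : ℂ))) x y‖ₑ ^ 2 ∂ν) ^ K := by
    intro x
    rw [show (2 * K : ℝ) / 2 = (K : ℝ) by ring, ENNReal.rpow_natCast]
    congr 1
    refine lintegral_congr fun τ => ?_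
    have e1 : ∀ c : ℝ≥0∞, (c ^ (1 / 2 : ℝ)) ^ 2 = c := fun c => by
      rw [← ENNReal.rpow_natCast, ← ENNReal.rpow_mul]; norm_num
    rw [e1]
    congr 1
    · simp only [hWdef]
      rw [ENNReal.ofReal_mul (hP1 τ).le]
      congr 1
      rw [← ofReal_norm, As_conj_norm, ENNReal.ofReal_inv_of_pos (pow_pos (hAs τ) 2),
        ENNReal.ofReal_pow (norm_nonneg _), ENNReal.inv_pow]
    · refine lintegral_congr fun y => ?_
      have h := uW_mod U Ψ (UD.pos hU) (p / (2 * K)) (τ * κ) (1 / m * τ) (by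
        rw [hκ]; field_simp) x y
      rw [h, one_mul]
  simp_rw [hL]
  refine hkey.trans (le_of_eq ?_)
  rw [show (2 * K : ℝ) / 2 = (K : ℝ) by ring, ENNReal.rpow_natCast, ← mul_assoc,
    ← ENNReal.ofReal_pow h0.le, ← ENNReal.ofReal_mul (by positivity)]
  congr 2
  have e2 : Real.pi ^ ((2 * K : ℝ) - 2) = Real.pi ^ (2 * K) / Real.pi ^ 2 := by
    rw [Real.rpow_sub hpi, ← Real.rpow_natCast, ← Real.rpow_natCast]
    push_cast
    norm_num
  rw [e2, mul_pow]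
  field_simp
  ring

/-- line `Re z = 0`, exponent `2` -/
theorem line_T2 {c1 c2 : ℝ} {U : ℂ → Y → ℂ} {Ψ : ℂ → ℝ} (hU : UD ν c1 c2 U Ψ)
    (m : ℝ) (θ : ℝ) (h0 : 0 < θ) (h1 : θ < 1) (p : ℝ) (κ : ℝ) :
    ∫⁻ x : ℂ, (∫⁻ τ : ℝ, ENNReal.ofReal (P1 θ τ) *
        (‖As (((1 / 2 : ℝ) : ℂ) + I * ((-(τ / (2 * m)) : ℝ) : ℂ))‖ₑ⁻¹) ^ 2 *
        ((∫⁻ y, ‖uW U Ψ (((p / 2 - 1 : ℝ) : ℂ) + I * ((τ * κ : ℝ) : ℂ)) x y‖ₑ ^ 2 ∂ν) ^
          (1 / 2 : ℝ)) ^ 2) ^ ((2 : ℝ) / 2) ≤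
      ENNReal.ofReal θ ^ ((2 : ℝ) / 2) * (ENNReal.ofReal (Real.pi ^ ((2 : ℝ) - 2)) *
        ∫⁻ ξ in Ann c1 c2, ENNReal.ofReal ((‖ξ‖ ^ 4)⁻¹ * Ψ ξ ^ p)) := by
  obtain ⟨-, hc1, -, hP1, -, -, -⟩ := P_facts θ h0 h1
  obtain ⟨-, hi1⟩ := P_int θ h0 h1 0
  simp only [pow_zero, one_mul] at hi1
  obtain ⟨-, hm1⟩ := P_mass θ h0 h1
  have e1 : ∀ c : ℝ≥0∞, (c ^ (1 / 2 : ℝ)) ^ 2 = c := fun c => by
    rw [← ENNReal.rpow_natCast, ← ENNReal.rpow_mul]; norm_num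
  have e2 : (2:ℝ) / 2 = 1 := by norm_num
  have e3 : Real.pi ^ ((2:ℝ) - 2) = 1 := by norm_num
  have hAs : ∀ y : ℝ, ‖As (((1 / 2 : ℝ) : ℂ) + I * (y : ℂ))‖ₑ = 1 := by
    intro y
    have hg : Complex.Gamma (((1 / 2 : ℝ) : ℂ) + I * (y : ℂ)) ≠ 0 := by
      apply Complex.Gamma_ne_zero_of_re_pos
      simp
    have h2 : (1 : ℂ) - (((1 / 2 : ℝ) : ℂ) + I * (y : ℂ)) = conj (((1 / 2 : ℝ) : ℂ) + I * (y : ℂ)) := by
      simp only [map_add, map_mul, Complex.conj_I, Complex.conj_ofReal]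
      push_cast
      ring
    unfold As
    rw [h2, Complex.Gamma_conj, ← ofReal_norm, norm_div, Complex.norm_conj,
      div_self (norm_pos_iff.2 hg).ne', ENNReal.ofReal_one]
  rw [e2, e3, ENNReal.ofReal_one, one_mul, ENNReal.rpow_one]
  simp_rw [e1, hAs, ENNReal.rpow_one, inv_one, one_pow, mul_one]
  have hmeas : Measurable (fun t : ℂ × ℝ => ENNReal.ofReal (P1 θ t.2) *
      ∫⁻ y, ‖uW U Ψ (((p / 2 - 1 : ℝ) : ℂ) + I * ((t.2 * κ : ℝ) : ℂ)) t.1 y‖ₑ ^ 2 ∂ν) := by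
    have mk : Measurable (fun q : ((ℂ × ℝ) × Y) × ℂ => ch q.1.1.1 q.2 * (U q.2 q.1.2 *
        Complex.exp ((((p / 2 - 1 : ℝ) : ℂ) + I * ((q.1.1.2 * κ : ℝ) : ℂ)) *
          (Real.log (Ψ q.2) : ℂ)))) := by
      have m1 : Measurable (fun q : ((ℂ × ℝ) × Y) × ℂ => ch q.1.1.1 q.2) :=
        I1_ch_cont.measurable.comp ((measurable_fst.comp (measurable_fst.comp
          measurable_fst)).prodMk measurable_snd)
      have m2 : Measurable (fun q : ((ℂ × ℝ) × Y) × ℂ => U q.2 q.1.2) :=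
        hU.meas.comp (measurable_snd.prodMk (measurable_snd.comp measurable_fst))
      have m3 : Measurable (fun q : ((ℂ × ℝ) × Y) × ℂ => Real.log (Ψ q.2)) :=
        (hU.Ψmeas.comp measurable_snd).log
      have m4 : Measurable (fun q : ((ℂ × ℝ) × Y) × ℂ => q.1.1.2) :=
        measurable_snd.comp (measurable_fst.comp measurable_fst)
      have m5 : Measurable (fun q : ((ℂ × ℝ) × Y) × ℂ =>
          Complex.exp ((((p / 2 - 1 : ℝ) : ℂ) + I * ((q.1.1.2 * κ : ℝ) : ℂ)) *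
          (Real.log (Ψ q.2) : ℂ))) := by fun_prop
      exact m1.mul (m2.mul m5)
    have m6 : Measurable (fun q : (ℂ × ℝ) × Y =>
        uW U Ψ (((p / 2 - 1 : ℝ) : ℂ) + I * ((q.1.2 * κ : ℝ) : ℂ)) q.1.1 q.2) := by
      unfold uW
      exact (mk.stronglyMeasurable.integral_prod_right').measurable
    have m7 : Measurable (fun t : ℂ × ℝ =>
        ∫⁻ y, ‖uW U Ψ (((p / 2 - 1 : ℝ) : ℂ) + I * ((t.2 * κ : ℝ) : ℂ)) t.1 y‖ₑ ^ 2 ∂ν) :=
      (m6.enorm.pow_const 2).lintegral_prod_right'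
    exact ((hc1.measurable.comp measurable_snd).ennreal_ofReal).mul m7
  rw [lintegral_lintegral_swap hmeas.aemeasurable]
  calc ∫⁻ τ, ∫⁻ x, ENNReal.ofReal (P1 θ τ) *
      ∫⁻ y, ‖uW U Ψ (((p / 2 - 1 : ℝ) : ℂ) + I * ((τ * κ : ℝ) : ℂ)) x y‖ₑ ^ 2 ∂ν
      ≤ ∫⁻ τ, ENNReal.ofReal (P1 θ τ) *
          ∫⁻ ξ in Ann c1 c2, ENNReal.ofReal ((‖ξ‖ ^ 4)⁻¹ * Ψ ξ ^ p) := by
        refine lintegral_mono fun τ => ?_
        simp only
        rw [lintegral_const_mul' _ _ ENNReal.ofReal_ne_top]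
        refine mul_le_mul_right (line0 hU p _ ?_) _
        simp
    _ = _ := by
        rw [lintegral_mul_const _ hc1.measurable.ennreal_ofReal,
          ← ofReal_integral_eq_lintegral_ofReal hi1 (Eventually.of_forall fun τ => (hP1 τ).le), hm1]

omit [IsFiniteMeasure ν] in
theorem uW_line_meas [SFinite ν] {c1 c2 : ℝ} {U : ℂ → Y → ℂ} {Ψ : ℂ → ℝ} (hU : UD ν c1 c2 U Ψ)
    (b κ : ℝ) :
    Measurable (Function.uncurry (fun (τ : ℝ) (x : ℂ) =>
      (∫⁻ y, ‖uW U Ψ ((b : ℂ) + I * ((τ * κ : ℝ) : ℂ)) x y‖ₑ ^ 2 ∂ν) ^ (1 / 2 : ℝ))) := by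
  have mk : Measurable (fun q : ((ℝ × ℂ) × Y) × ℂ => ch q.1.1.2 q.2 * (U q.2 q.1.2 *
      Complex.exp (((b : ℂ) + I * ((q.1.1.1 * κ : ℝ) : ℂ)) *
        (Real.log (Ψ q.2) : ℂ)))) := by
    have m1 : Measurable (fun q : ((ℝ × ℂ) × Y) × ℂ => ch q.1.1.2 q.2) :=
      I1_ch_cont.measurable.comp ((measurable_snd.comp (measurable_fst.comp
        measurable_fst)).prodMk measurable_snd)
    have m2 : Measurable (fun q : ((ℝ × ℂ) × Y) × ℂ => U q.2 q.1.2) :=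
      hU.meas.comp (measurable_snd.prodMk (measurable_snd.comp measurable_fst))
    have m3 : Measurable (fun q : ((ℝ × ℂ) × Y) × ℂ => Real.log (Ψ q.2)) :=
      (hU.Ψmeas.comp measurable_snd).log
    have m4 : Measurable (fun q : ((ℝ × ℂ) × Y) × ℂ => q.1.1.1) :=
      measurable_fst.comp (measurable_fst.comp measurable_fst)
    have m5 : Measurable (fun q : ((ℝ × ℂ) × Y) × ℂ =>
        Complex.exp (((b : ℂ) + I * ((q.1.1.1 * κ : ℝ) : ℂ)) *
        (Real.log (Ψ q.2) : ℂ))) := by fun_prop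
    exact m1.mul (m2.mul m5)
  have m6 : Measurable (fun q : (ℝ × ℂ) × Y =>
      uW U Ψ ((b : ℂ) + I * ((q.1.1 * κ : ℝ) : ℂ)) q.1.2 q.2) := by
    unfold uW
    exact (mk.stronglyMeasurable.integral_prod_right').measurable
  exact ((m6.enorm.pow_const 2).lintegral_prod_right').pow_const _

/-- continuity of the factor along a vertical line -/
theorem As_line_cont (c D : ℝ) (hc : 0 < c) (hc2 : c ≤ 1 / 2) :
    Continuous (fun τ : ℝ => (As ((c : ℂ) + I * ((-(τ / D) : ℝ) : ℂ)))⁻¹) := by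
  rw [continuous_iff_continuousAt]
  intro τ
  obtain ⟨C, hC⟩ := As_inv_growth c hc
  have hre : ((c : ℂ) + I * ((-(τ / D) : ℝ) : ℂ)).re = c := by
    simp only [Complex.add_re, Complex.mul_re, Complex.ofReal_re, Complex.ofReal_im,
      Complex.I_re, Complex.I_im]
    ring
  have h := (hC ((c : ℂ) + I * ((-(τ / D) : ℝ) : ℂ)) hre.ge (by rw [hre]; exact hc2)).1.continuousAt
  have h2 : ContinuousAt (fun τ : ℝ => (c : ℂ) + I * ((-(τ / D) : ℝ) : ℂ)) τ := by fun_prop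
  exact ContinuousAt.comp (f := fun τ : ℝ => (c : ℂ) + I * ((-(τ / D) : ℝ) : ℂ)) h h2

theorem As_line_ne (c y : ℝ) (hc : 0 < c) (hc2 : c ≤ 1 / 2) : As ((c : ℂ) + I * (y : ℂ)) ≠ 0 := by
  obtain ⟨C, hC⟩ := As_inv_growth c hc
  have hre : ((c : ℂ) + I * (y : ℂ)).re = c := by
    simp only [Complex.add_re, Complex.mul_re, Complex.ofReal_re, Complex.ofReal_im,
      Complex.I_re, Complex.I_im]
    ring
  exact (hC _ hre.ge (by rw [hre]; exact hc2)).2.1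

/-- the real inequality -/
theorem real_fin (θ p0 p1 p x s A : ℝ) (hp0 : 0 < p0) (hp1 : 0 < p1) (hp : 0 < p)
    (hpp : 1 / p = (1 - θ) / p0 + θ / p1) (hx : 0 < x) (hs : 0 < s) (hA : 0 < A)
    (h : x * A⁻¹ ≤ ((Real.pi ^ (p0 - 2) * s) ^ (1 / p0) * x ^ (1 - 1 / p0)) ^ (1 - θ) *
      ((Real.pi ^ (p1 - 2) * s) ^ (1 / p1) * x ^ (1 - 1 / p1)) ^ θ) :
    x ≤ Real.pi ^ (p - 2) * A ^ p * s := by
  have hpi := Real.pi_pos
  have h2 := Real.log_le_log (by positivity) h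
  rw [Real.log_mul (by positivity) (by positivity), Real.log_mul (by positivity) (by positivity),
    Real.log_rpow (by positivity), Real.log_rpow (by positivity),
    Real.log_mul (by positivity) (by positivity), Real.log_mul (by positivity) (by positivity),
    Real.log_rpow (by positivity), Real.log_rpow (by positivity), Real.log_rpow (by positivity),
    Real.log_rpow (by positivity), Real.log_mul (by positivity) (by positivity),
    Real.log_mul (by positivity) (by positivity), Real.log_rpow (by positivity),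
    Real.log_rpow (by positivity), Real.log_inv] at h2
  rw [← Real.log_le_log_iff hx (by positivity), Real.log_mul (by positivity) (by positivity),
    Real.log_mul (by positivity) (by positivity), Real.log_rpow (by positivity),
    Real.log_rpow (by positivity)]
  set X := Real.log x
  set S := Real.log s
  set L := Real.log A
  set Q := Real.log Real.pi
  have e1 : (1 - θ) * (1 / p0 * ((p0 - 2) * Q + S) + (1 - 1 / p0) * X) +
      θ * (1 / p1 * ((p1 - 2) * Q + S) + (1 - 1 / p1) * X) =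
      (1 - 2 * (1 / p)) * Q + (1 / p) * S + (1 - 1 / p) * X := by
    rw [hpp]
    field_simp
    ring
  rw [e1] at h2
  have e2 : (1 / p) * X ≤ L + (1 - 2 * (1 / p)) * Q + (1 / p) * S := by linarith
  have e3 : p * ((1 / p) * X) ≤ p * (L + (1 - 2 * (1 / p)) * Q + (1 / p) * S) :=
    mul_le_mul_of_nonneg_left e2 hp.le
  have e4 : p * ((1 / p) * X) = X := by field_simp
  have e5 : p * (L + (1 - 2 * (1 / p)) * Q + (1 / p) * S) = (p - 2) * Q + p * L + S := by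
    field_simp
    ring
  linarith

theorem core_sharp (k : ℕ) (hk : 1 ≤ k) (θ : ℝ) (h0 : 0 < θ) (h1 : θ < 1) (p : ℝ)
    (hp : 1 / p = (1 - θ) / (2 * k) + θ / (2 * k + 2)) {c1 c2 : ℝ} {U : ℂ → Y → ℂ} {Ψ : ℂ → ℝ}
    (hU : UD ν c1 c2 U Ψ) (N : ℝ) (hN : 0 < N) :
    ∫⁻ x in {x : ℂ | ‖x‖ ≤ N ∧ ENNReal.ofReal (1 / N) ≤ uH ν U x}, (uH ν U x) ^ p ≤
      ENNReal.ofReal (Real.pi ^ (p - 2) * Ap p ^ p) *
        ∫⁻ ξ in Ann c1 c2, ENNReal.ofReal ((‖ξ‖ ^ 4)⁻¹ * Ψ ξ ^ p) := by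
  have hk1 : (1:ℝ) ≤ k := by exact_mod_cast hk
  have hk0 : (0:ℝ) < k := by linarith
  have h1θ : 0 < 1 - θ := by linarith
  set p0 : ℝ := 2 * k with hp0d
  set p1 : ℝ := 2 * k + 2 with hp1d
  have hp0 : 0 < p0 := by positivity
  have hp1 : 0 < p1 := by positivity
  have hinv : 0 < 1 / p := by rw [hp]; positivity
  have hp0' : 0 < p := one_div_pos.mp hinv
  have hple : 1 / p < 1 := by
    have h3 : (1 - θ) / p0 ≤ (1 - θ) / 2 :=
      div_le_div_of_nonneg_left h1θ.le (by norm_num) (by rw [hp0d]; linarith)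
    have h4 : θ / p1 ≤ θ / 2 :=
      div_le_div_of_nonneg_left h0.le (by norm_num) (by rw [hp1d]; linarith)
    rw [hp]; linarith
  have hp1' : 1 < p := by rwa [div_lt_one hp0'] at hple
  have hApos := Ap_pos p hp1'
  have hpi := Real.pi_pos
  obtain ⟨hfin, F, hFd, ⟨C, hC⟩, hFθ, hF0, hF1⟩ := interp_G ν c1 c2 U Ψ hU p p0 p1 θ
    (by rw [hp0d]; linarith) (by rw [hp0d, hp1d]; linarith) h0 h1 hp N hN _ rfl
  set X : Set ℂ := {x : ℂ | ‖x‖ ≤ N ∧ ENNReal.ofReal (1 / N) ≤ uH ν U x} with hX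
  have hUHm : Measurable (uH ν U) := I1_uH_meas (Ψ := Ψ) hU.meas hU.Ψmeas
  have hXm : MeasurableSet X :=
    (measurableSet_le measurable_norm measurable_const).inter
      (measurableSet_le measurable_const hUHm)
  set IN := ∫⁻ x in X, (uH ν U x) ^ p with hIN
  set S := ∫⁻ ξ in Ann c1 c2, ENNReal.ofReal ((‖ξ‖ ^ 4)⁻¹ * Ψ ξ ^ p) with hS
  obtain ⟨-, hc1', -, hP1, -, -, -⟩ := P_facts θ h0 h1
  obtain ⟨-, hc1c, -, hP1c, -, -, -⟩ := P_facts (1 - θ) h1θ (by linarith)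
  obtain ⟨-, hi1⟩ := P_int θ h0 h1 0
  obtain ⟨-, hi1c⟩ := P_int (1 - θ) h1θ (by linarith) 0
  simp only [pow_zero, one_mul] at hi1 hi1c
  obtain ⟨-, hm1⟩ := P_mass θ h0 h1
  obtain ⟨-, hm1c⟩ := P_mass (1 - θ) h1θ (by linarith)
  have hP01 : ∀ τ, P0 θ τ = P1 (1 - θ) τ := by
    intro τ
    unfold P0 P1
    rw [show Real.pi * (1 - θ) = Real.pi - Real.pi * θ by ring, Real.sin_pi_sub, Real.cos_pi_sub]
    ring
  -- the exponent function
  set δ : ℝ := 1 / p0 - 1 / p1 with hδ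
  have hδ0 : 0 < δ := by
    rw [hδ, hp0d, hp1d]
    have : 1 / (2 * (k:ℝ) + 2) < 1 / (2 * k) := one_div_lt_one_div_of_lt (by positivity) (by linarith)
    linarith
  have hδv : δ = 1 / (2 * k * (k + 1)) := by
    rw [hδ, hp0d, hp1d]
    field_simp
    ring
  set sz : ℂ → ℂ := fun z => ((1 / p0 : ℝ) : ℂ) - (δ : ℂ) * z with hsz
  have hszre : ∀ z : ℂ, (sz z).re = 1 / p0 - δ * z.re := by
    intro z
    simp [hsz]
  have hszim : ∀ z : ℂ, (sz z).im = -(δ * z.im) := by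
    intro z
    simp [hsz]
  have hszlow : ∀ z : ℂ, z.re ≤ 1 → 1 / p1 ≤ (sz z).re := by
    intro z hz
    rw [hszre]
    have : δ * z.re ≤ δ * 1 := mul_le_mul_of_nonneg_left hz hδ0.le
    linarith
  have hp0half : 1 / p0 ≤ 1 / 2 := one_div_le_one_div_of_le (by norm_num) (by rw [hp0d]; linarith)
  have hszup : ∀ z : ℂ, 0 ≤ z.re → (sz z).re ≤ 1 / 2 := by
    intro z hz
    rw [hszre]
    have : 0 ≤ δ * z.re := mul_nonneg hδ0.le hz
    linarith
  obtain ⟨C', hC'⟩ := As_inv_growth (1 / p1) (by positivity)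
  -- the function H
  set H : ℂ → ℂ := fun z => F z * (As (sz z))⁻¹ with hH
  have hHd : ∀ z : ℂ, 0 ≤ z.re → z.re ≤ 1 → DifferentiableAt ℂ H z := by
    intro z hz hz1
    have hs := (hC' (sz z) (hszlow z hz1) (hszup z hz)).1
    have hszd : DifferentiableAt ℂ sz z := by
      rw [hsz]; fun_prop
    exact (hFd z).mul (DifferentiableAt.comp (f := sz) z hs hszd)
  have hCn : 0 ≤ C := (norm_nonneg _).trans (hC 0 (by simp) (by simp))
  have hC'n : 0 ≤ C' := by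
    have h3 := (hC' (sz 0) (hszlow 0 (by simp)) (hszup 0 (by simp))).2.2
    rw [hszim] at h3
    simp only [Complex.zero_im, mul_zero, neg_zero, abs_zero, add_zero, mul_one] at h3
    exact (norm_nonneg _).trans h3
  have hδ1 : δ ≤ 1 := by
    rw [hδv, div_le_one (by positivity)]
    nlinarith
  have hHb : ∀ z : ℂ, 0 ≤ z.re → z.re ≤ 1 → ‖H z‖ ≤ (C * C') * (1 + |z.im|) := by
    intro z hz hz1
    rw [hH]
    simp only [norm_mul]
    have h3 := hC z hz hz1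
    have h4 := (hC' (sz z) (hszlow z hz1) (hszup z hz)).2.2
    rw [hszim, abs_neg, abs_mul, abs_of_pos hδ0] at h4
    have h5 : 1 + δ * |z.im| ≤ 1 + |z.im| := by
      have := mul_le_mul_of_nonneg_right hδ1 (abs_nonneg z.im)
      linarith
    calc ‖F z‖ * ‖(As (sz z))⁻¹‖ ≤ C * (C' * (1 + |z.im|)) := by
          apply mul_le_mul h3 (h4.trans (mul_le_mul_of_nonneg_left h5 hC'n)) (norm_nonneg _) hCn
      _ = _ := by ring
  have hmul := poisson_growth θ h0 h1 H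
    (fun z hz => (hHd z hz.1 hz.2).continuousAt.continuousWithinAt)
    (fun z hz => (hHd z hz.1.le hz.2.le).differentiableWithinAt) (C * C') hHb
  have hHθ : ‖H θ‖ₑ = IN * ENNReal.ofReal (Ap p)⁻¹ := by
    have e : sz (θ : ℂ) = ((1 / p : ℝ) : ℂ) := by
      have e0 : 1 / p = 1 / p0 - δ * θ := by
        rw [hp, hδ]; ring
      rw [hsz, e0]
      push_cast
      ring
    rw [hH]
    simp only [enorm_mul, hFθ]
    rw [e, As_real]
    congr 1
    rw [← ofReal_norm, norm_inv, Complex.norm_real, Real.norm_of_nonneg hApos.le]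
  -- line 0
  have hc0 : (0:ℝ) < 1 / p0 := by positivity
  have hH0 : (ENNReal.ofReal (1 - θ))⁻¹ * ∫⁻ τ : ℝ, ENNReal.ofReal (P0 θ τ) * ‖H (I * τ)‖ₑ ≤
      (ENNReal.ofReal (Real.pi ^ (p0 - 2)) * S) ^ (1 / p0) * IN ^ (1 - 1 / p0) := by
    set D : ℝ := 2 * k * (k + 1) with hD
    set a : ℝ → ℝ≥0∞ := fun τ => ‖(As (((1 / p0 : ℝ) : ℂ) + I * ((-(τ / D) : ℝ) : ℂ)))⁻¹‖ₑ with ha
    have ham : Measurable a := (As_line_cont (1 / p0) D hc0 hp0half).measurable.enorm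
    have esz : ∀ τ : ℝ, sz (I * τ) = ((1 / p0 : ℝ) : ℂ) + I * ((-(τ / D) : ℝ) : ℂ) := by
      intro τ
      rw [hsz, hδv]
      push_cast
      ring
    simp_rw [hP01]
    refine line_bound X hXm p0 p (by rw [hp0d]; linarith) (uH ν U) hUHm
      (fun τ x => (∫⁻ y, ‖uW U Ψ (((p / p0 - 1 : ℝ) : ℂ) +
          I * ((τ * (p * (1 / p1 - 1 / p0)) : ℝ) : ℂ)) x y‖ₑ ^ 2 ∂ν) ^ (1 / 2 : ℝ))
      (uW_line_meas hU (p / p0 - 1) (p * (1 / p1 - 1 / p0)))
      (fun τ => ENNReal.ofReal (P1 (1 - θ) τ)) a (fun τ => ‖H (I * τ)‖ₑ)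
      hc1c.measurable.ennreal_ofReal ham (ENNReal.ofReal (1 - θ)) _ ?_ ?_ ?_ ?_ ?_
    · rw [← ofReal_integral_eq_lintegral_ofReal hi1c (Eventually.of_forall fun τ => (hP1c τ).le), hm1c]
    · simp only [ne_eq, ENNReal.ofReal_eq_zero, not_le]
      exact h1θ
    · exact ENNReal.ofReal_ne_top
    · intro τ
      rw [hH]
      simp only [enorm_mul]
      rw [esz, mul_comm]
      exact mul_le_mul_right (hF0 τ) _
    · have ea : ∀ τ, a τ = ‖As (((1 / p0 : ℝ) : ℂ) + I * ((-(τ / D) : ℝ) : ℂ))‖ₑ⁻¹ := fun τ =>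
        enorm_inv (As_line_ne (1 / p0) _ hc0 hp0half)
      simp_rw [ea]
      rcases Nat.lt_or_ge k 2 with hk2 | hk2
      · have hk' : k = 1 := by omega
        subst hk'
        have hp02 : p0 = 2 := by rw [hp0d]; norm_num
        have hD2 : D = 2 * 2 := by rw [hD]; norm_num
        rw [hp02, hD2]
        exact line_T2 hU 2 (1 - θ) h1θ (by linarith) p _
      · have hk2' : (2:ℝ) ≤ k := by exact_mod_cast hk2
        have h := line_T hU k hk2 (k + 1) (Or.inr (by linarith)) (1 - θ) h1θ (by linarith) p hp0'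
          (p * (1 / p1 - 1 / p0)) (by
            have e : 1 / p1 - 1 / p0 = -δ := by rw [hδ]; ring
            rw [e, hδv]; ring)
        exact h
  have hc1p : (0:ℝ) < 1 / p1 := by positivity
  have hp1half : 1 / p1 ≤ 1 / 2 := one_div_le_one_div_of_le (by norm_num) (by rw [hp1d]; linarith)
  have hH1 : (ENNReal.ofReal θ)⁻¹ * ∫⁻ τ : ℝ, ENNReal.ofReal (P1 θ τ) * ‖H (1 + I * τ)‖ₑ ≤
      (ENNReal.ofReal (Real.pi ^ (p1 - 2)) * S) ^ (1 / p1) * IN ^ (1 - 1 / p1) := by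
    set D : ℝ := p1 * k with hD
    set a : ℝ → ℝ≥0∞ := fun τ => ‖(As (((1 / p1 : ℝ) : ℂ) + I * ((-(τ / D) : ℝ) : ℂ)))⁻¹‖ₑ with ha
    have ham : Measurable a := (As_line_cont (1 / p1) D hc1p hp1half).measurable.enorm
    have hδD : δ = 1 / D := by
      rw [hδv, hD, hp1d]
      congr 1
      ring
    have esz : ∀ τ : ℝ, sz (1 + I * τ) = ((1 / p1 : ℝ) : ℂ) + I * ((-(τ / D) : ℝ) : ℂ) := by
      intro τ
      have e0 : 1 / p0 = 1 / p1 + δ := by rw [hδ]; ring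
      rw [hsz, e0, hδD]
      push_cast
      ring
    refine line_bound X hXm p1 p (by rw [hp1d]; linarith) (uH ν U) hUHm
      (fun τ x => (∫⁻ y, ‖uW U Ψ (((p / p1 - 1 : ℝ) : ℂ) +
          I * ((τ * (p * (1 / p1 - 1 / p0)) : ℝ) : ℂ)) x y‖ₑ ^ 2 ∂ν) ^ (1 / 2 : ℝ))
      (uW_line_meas hU (p / p1 - 1) (p * (1 / p1 - 1 / p0)))
      (fun τ => ENNReal.ofReal (P1 θ τ)) a (fun τ => ‖H (1 + I * τ)‖ₑ)
      hc1'.measurable.ennreal_ofReal ham (ENNReal.ofReal θ) _ ?_ ?_ ?_ ?_ ?_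
    · rw [← ofReal_integral_eq_lintegral_ofReal hi1 (Eventually.of_forall fun τ => (hP1 τ).le), hm1]
    · simp only [ne_eq, ENNReal.ofReal_eq_zero, not_le]
      exact h0
    · exact ENNReal.ofReal_ne_top
    · intro τ
      rw [hH]
      simp only [enorm_mul]
      rw [esz, mul_comm]
      exact mul_le_mul_right (hF1 τ) _
    · have ea : ∀ τ, a τ = ‖As (((1 / p1 : ℝ) : ℂ) + I * ((-(τ / D) : ℝ) : ℂ))‖ₑ⁻¹ := fun τ =>
        enorm_inv (As_line_ne (1 / p1) _ hc1p hp1half)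
      simp_rw [ea]
      have hp1K : p1 = 2 * ((k + 1 : ℕ) : ℝ) := by
        rw [hp1d]; push_cast; ring
      have hm : (k:ℝ) = 1 ∨ 2 ≤ (k:ℝ) := by
        rcases Nat.lt_or_ge k 2 with hk2 | hk2
        · left
          have : k = 1 := by omega
          rw [this]; norm_num
        · right
          exact_mod_cast hk2
      have h := line_T hU (k + 1) (by omega) k hm θ h0 h1 p hp0'
        (p * (1 / p1 - 1 / p0)) (by
          have e : 1 / p1 - 1 / p0 = -δ := by rw [hδ]; ring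
          rw [e, hδv]; push_cast; ring)
      rw [← hp1K] at h
      exact h
  rw [hHθ] at hmul
  have hfinal : IN * ENNReal.ofReal (Ap p)⁻¹ ≤
      ((ENNReal.ofReal (Real.pi ^ (p0 - 2)) * S) ^ (1 / p0) * IN ^ (1 - 1 / p0)) ^ (1 - θ) *
      ((ENNReal.ofReal (Real.pi ^ (p1 - 2)) * S) ^ (1 / p1) * IN ^ (1 - 1 / p1)) ^ θ :=
    hmul.trans (mul_le_mul' (ENNReal.rpow_le_rpow hH0 (by linarith)) (ENNReal.rpow_le_rpow hH1 h0.le))
  -- conclusion
  have hcpos : 0 < Real.pi ^ (p - 2) * Ap p ^ p := by positivity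
  by_cases hIN0 : IN = 0
  · rw [hIN0]; exact zero_le
  by_cases hStop : S = ∞
  · rw [hStop, ENNReal.mul_top (by simpa using hcpos)]
    exact le_top
  by_cases hS0 : S = 0
  · exfalso
    rw [hS0] at hfinal
    have h3 : ((ENNReal.ofReal (Real.pi ^ (p0 - 2)) * 0) ^ (1 / p0) * IN ^ (1 - 1 / p0)) ^ (1 - θ)
        = 0 := by
      rw [mul_zero, ENNReal.zero_rpow_of_pos (by positivity), zero_mul,
        ENNReal.zero_rpow_of_pos h1θ]
    rw [h3, zero_mul, le_zero_iff, mul_eq_zero] at hfinal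
    rcases hfinal with h | h
    · exact hIN0 h
    · rw [ENNReal.ofReal_eq_zero] at h
      have : 0 < (Ap p)⁻¹ := by positivity
      linarith
  have hx : 0 < IN.toReal := ENNReal.toReal_pos hIN0 hfin
  have hs : 0 < S.toReal := ENNReal.toReal_pos hS0 hStop
  have eIN : IN = ENNReal.ofReal IN.toReal := (ENNReal.ofReal_toReal hfin).symm
  have eS : S = ENNReal.ofReal S.toReal := (ENNReal.ofReal_toReal hStop).symm
  set x := IN.toReal
  set s := S.toReal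
  have hfr : x * (Ap p)⁻¹ ≤ ((Real.pi ^ (p0 - 2) * s) ^ (1 / p0) * x ^ (1 - 1 / p0)) ^ (1 - θ) *
      ((Real.pi ^ (p1 - 2) * s) ^ (1 / p1) * x ^ (1 - 1 / p1)) ^ θ := by
    rw [eIN, eS, ← ENNReal.ofReal_mul hx.le, ← ENNReal.ofReal_mul (by positivity),
      ← ENNReal.ofReal_mul (by positivity), ENNReal.ofReal_rpow_of_pos (by positivity),
      ENNReal.ofReal_rpow_of_pos hx, ← ENNReal.ofReal_mul (by positivity),
      ENNReal.ofReal_rpow_of_pos (by positivity), ENNReal.ofReal_rpow_of_pos (by positivity),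
      ENNReal.ofReal_rpow_of_pos hx, ← ENNReal.ofReal_mul (by positivity),
      ENNReal.ofReal_rpow_of_pos (by positivity), ← ENNReal.ofReal_mul (by positivity),
      ENNReal.ofReal_le_ofReal_iff (by positivity)] at hfinal
    exact hfinal
  have hres := real_fin θ p0 p1 p x s (Ap p) hp0 hp1 hp0' hp hx hs hApos hfr
  rw [eIN, eS, ← ENNReal.ofReal_mul hcpos.le]
  exact ENNReal.ofReal_le_ofReal hres

end core

end Helper72.BQ.P
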