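import Pool.Agent.Helper72.BQ.Defs
import Pool.Agent.Helper85.BPM.K2

/-!
# MP_3dd6d4_an, BQ module Q3: tangent inequality and Hölder (helper74)
-/

set_option autoImplicit false

open MeasureTheory Complex FourierTransform Filter Topology
open scoped ENNReal NNReal ComplexConjugate

noncomputable section

namespace Helper72.BQ.P

open Helper72.BA Helper85.BP Helper72.BQ

private lemma q3_int_mul {β : ℝ} {W : ℝ → ℝ} (hW : Adm β W) (φ : ℝ → ℝ) (hφ : Continuous φ) (C : ℝ)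
    (h : ∀ τ, |φ τ| ≤ C * (1 + β ^ 2 * τ ^ 2)) : Integrable (fun τ => W τ * φ τ) := by
  refine Integrable.mono' (hW.int.const_mul C) (hW.cont.mul hφ).aestronglyMeasurable ?_
  refine Eventually.of_forall fun τ => ?_
  rw [Real.norm_eq_abs, abs_mul, abs_of_nonneg (hW.nonneg τ)]
  have := mul_le_mul_of_nonneg_left (h τ) (hW.nonneg τ)
  linarith

private lemma q3_abs_le_quad (a : ℝ) : |a| ≤ 1 + a ^ 2 := by
  rcases abs_cases a with h | h <;> nlinarith [sq_nonneg (a - 1), sq_nonneg (a + 1), sq_nonneg a]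

private lemma q3_int_A {β : ℝ} {W : ℝ → ℝ} (hW : Adm β W) (r : ℝ) :
    Integrable (fun τ => W τ * (Real.cos (β * τ * r) - β * τ * Real.sin (β * τ * r))) := by
  refine q3_int_mul hW _ (by fun_prop) 2 fun τ => ?_
  have h1 := Real.abs_cos_le_one (β * τ * r)
  have h2 := Real.abs_sin_le_one (β * τ * r)
  have h3 := q3_abs_le_quad (β * τ)
  calc |Real.cos (β * τ * r) - β * τ * Real.sin (β * τ * r)|
      ≤ |Real.cos (β * τ * r)| + |β * τ * Real.sin (β * τ * r)| := abs_sub _ _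
    _ = |Real.cos (β * τ * r)| + |β * τ| * |Real.sin (β * τ * r)| := by rw [abs_mul (β * τ)]
    _ ≤ 1 + |β * τ| * 1 := by gcongr
    _ ≤ 2 * (1 + β ^ 2 * τ ^ 2) := by nlinarith [sq_nonneg (β * τ)]

private lemma q3_Wh_eq {β : ℝ} {W : ℝ → ℝ} (hW : Adm β W) (s : ℝ) :
    Wh β W s = 1 / 2 * Aw β W s + 1 / 2 * Aw β W (-s) := by
  have h1 : Aw β W s + Aw β W (-s) = ∫ τ, 2 * (W τ * Real.cos (β * τ * s)) := by
    rw [Aw, Aw, ← integral_add (q3_int_A hW s) (q3_int_A hW (-s))]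
    congr 1
    funext τ
    rw [show β * τ * -s = -(β * τ * s) by ring, Real.cos_neg, Real.sin_neg]
    ring
  rw [integral_const_mul] at h1
  rw [Wh]
  linarith

/-- weighted power mean -/
private lemma q3_pow_mean (K : ℕ) (hK : 2 ≤ K) (α α' p q : ℝ) (h : 0 ≤ α) (h' : 0 ≤ α')
    (hp : 0 ≤ p) (hq : 0 ≤ q) :
    (α * p + α' * q) ^ K ≤ (α + α') ^ (K - 1) * (α * p ^ K + α' * q ^ K) := by
  rcases eq_or_lt_of_le (add_nonneg h h') with h0 | h0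
  · have e1 : α = 0 := by linarith
    have e2 : α' = 0 := by linarith
    subst e1; subst e2
    simp [show K ≠ 0 by omega]
  · have hc := (convexOn_pow (𝕜 := ℝ) K).2 (Set.mem_Ici.2 hp) (Set.mem_Ici.2 hq)
      (div_nonneg h h0.le) (div_nonneg h' h0.le) (by field_simp)
    simp only [smul_eq_mul] at hc
    have e3 : α / (α + α') * p + α' / (α + α') * q = (α * p + α' * q) / (α + α') := by
      field_simp
    rw [e3, div_pow, div_le_iff₀ (by positivity)] at hc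
    calc (α * p + α' * q) ^ K
        ≤ (α / (α + α') * p ^ K + α' / (α + α') * q ^ K) * (α + α') ^ K := hc
      _ = (α + α') ^ (K - 1) * (α * p ^ K + α' * q ^ K) := by
          obtain ⟨m, rfl⟩ : ∃ m, K = m + 1 := ⟨K - 1, by omega⟩
          rw [Nat.add_sub_cancel, pow_succ (α + α') m]
          field_simp

/-- the pointwise inequality, real version -/
private lemma q3_real (K : ℕ) (hK : 2 ≤ K) (β : ℝ) (hβ : 0 < β) (W : ℝ → ℝ) (hW : Adm β W)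
    (a b x y : ℝ) (ha : 0 < a) (hb : 0 < b) (hx : 0 < x) (hy : 0 < y) :
    ((a ^ 2)⁻¹ * x * ((b ^ 2)⁻¹ * y) * Wh β W (Real.log x - Real.log y)) ^ K ≤
      (a ^ (1 / (K:ℝ) - 2) * b ^ (1 / (K:ℝ) - 2) *
        Wh β W ((1 / (K:ℝ)) * (Real.log a - Real.log b))) ^ (K - 1) *
      (a ^ (1 / (K:ℝ) - 2) * b ^ (1 / (K:ℝ) - 2) *
        (1 / 2 * Aw β W ((1 / (K:ℝ)) * (Real.log a - Real.log b)) * ((a ^ 2)⁻¹ * x ^ (2 * K)) +
         1 / 2 * Aw β W ((1 / (K:ℝ)) * (Real.log b - Real.log a)) * ((b ^ 2)⁻¹ * y ^ (2 * K)))) := by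
  obtain ⟨hWn, hAn, htan, -⟩ := Helper85.BP.P.Wh_ptw β hβ W hW
  have hK0 : (0:ℝ) < K := by exact_mod_cast (by omega : 0 < K)
  set r := (1 / (K:ℝ)) * (Real.log a - Real.log b) with hr
  have hr' : (1 / (K:ℝ)) * (Real.log b - Real.log a) = -r := by rw [hr]; ring
  rw [hr']
  set t := Real.log x - Real.log y - r with ht
  have h1 := htan r t
  rw [show r + t = Real.log x - Real.log y by rw [ht]; ring] at h1
  have hKt : Real.exp t ^ K = x ^ K / y ^ K * (b / a) := by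
    rw [← Real.exp_nat_mul, ht, hr]
    rw [show (K:ℝ) * (Real.log x - Real.log y - 1 / (K:ℝ) * (Real.log a - Real.log b)) =
      (K:ℝ) * Real.log x - (K:ℝ) * Real.log y + (Real.log b - Real.log a) by field_simp; ring]
    rw [Real.exp_add, Real.exp_sub, Real.exp_sub, Real.exp_nat_mul, Real.exp_nat_mul,
      Real.exp_log hx, Real.exp_log hy, Real.exp_log ha, Real.exp_log hb]
  have hKt' : Real.exp (-t) ^ K = y ^ K / x ^ K * (a / b) := by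
    rw [Real.exp_neg, inv_pow, hKt]
    field_simp
  have h2 : Wh β W (Real.log x - Real.log y) ^ K ≤
      Wh β W r ^ (K - 1) * (1 / 2 * Aw β W r * (x ^ K / y ^ K * (b / a)) +
        1 / 2 * Aw β W (-r) * (y ^ K / x ^ K * (a / b))) := by
    calc Wh β W (Real.log x - Real.log y) ^ K
        ≤ (1 / 2 * Aw β W r * Real.exp t + 1 / 2 * Aw β W (-r) * Real.exp (-t)) ^ K :=
          pow_le_pow_left₀ (hWn _) h1 K
      _ ≤ _ := q3_pow_mean K hK _ _ _ _ (by have := hAn r; positivity)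
          (by have := hAn (-r); positivity) (Real.exp_pos _).le (Real.exp_pos _).le
      _ = _ := by rw [← q3_Wh_eq hW r, hKt, hKt']
  have hpa : (a ^ (1 / (K:ℝ) - 2)) ^ K = a / a ^ (2 * K) := by
    rw [← Real.rpow_natCast, ← Real.rpow_mul ha.le, show (1 / (K:ℝ) - 2) * (K:ℝ) = 1 - ((2 * K : ℕ) : ℝ) by
      push_cast; field_simp, Real.rpow_sub ha, Real.rpow_one, Real.rpow_natCast]
  have hpb : (b ^ (1 / (K:ℝ) - 2)) ^ K = b / b ^ (2 * K) := by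
    rw [← Real.rpow_natCast, ← Real.rpow_mul hb.le, show (1 / (K:ℝ) - 2) * (K:ℝ) = 1 - ((2 * K : ℕ) : ℝ) by
      push_cast; field_simp, Real.rpow_sub hb, Real.rpow_one, Real.rpow_natCast]
  have e1 : ((a ^ 2)⁻¹ * x * ((b ^ 2)⁻¹ * y) * Wh β W (Real.log x - Real.log y)) ^ K =
      x ^ K * y ^ K / (a ^ (2 * K) * b ^ (2 * K)) * Wh β W (Real.log x - Real.log y) ^ K := by
    rw [mul_pow, mul_pow, mul_pow, mul_pow, inv_pow, inv_pow, ← pow_mul, ← pow_mul]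
    field_simp
  have e2 : (a ^ (1 / (K:ℝ) - 2) * b ^ (1 / (K:ℝ) - 2) * Wh β W r) ^ (K - 1) *
      (a ^ (1 / (K:ℝ) - 2) * b ^ (1 / (K:ℝ) - 2) *
        (1 / 2 * Aw β W r * ((a ^ 2)⁻¹ * x ^ (2 * K)) +
         1 / 2 * Aw β W (-r) * ((b ^ 2)⁻¹ * y ^ (2 * K)))) =
      x ^ K * y ^ K / (a ^ (2 * K) * b ^ (2 * K)) *
      (Wh β W r ^ (K - 1) * (1 / 2 * Aw β W r * (x ^ K / y ^ K * (b / a)) +
        1 / 2 * Aw β W (-r) * (y ^ K / x ^ K * (a / b)))) := by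
    have e3 : (a ^ (1 / (K:ℝ) - 2) * b ^ (1 / (K:ℝ) - 2) * Wh β W r) ^ (K - 1) *
      (a ^ (1 / (K:ℝ) - 2) * b ^ (1 / (K:ℝ) - 2) *
        (1 / 2 * Aw β W r * ((a ^ 2)⁻¹ * x ^ (2 * K)) +
         1 / 2 * Aw β W (-r) * ((b ^ 2)⁻¹ * y ^ (2 * K)))) =
      ((a ^ (1 / (K:ℝ) - 2)) ^ K * (b ^ (1 / (K:ℝ) - 2)) ^ K) * (Wh β W r ^ (K - 1) *
        (1 / 2 * Aw β W r * ((a ^ 2)⁻¹ * x ^ (2 * K)) +
         1 / 2 * Aw β W (-r) * ((b ^ 2)⁻¹ * y ^ (2 * K)))) := by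
      obtain ⟨m, rfl⟩ : ∃ m, K = m + 1 := ⟨K - 1, by omega⟩
      rw [Nat.add_sub_cancel, mul_pow, mul_pow, pow_succ, pow_succ]
      ring
    rw [e3, hpa, hpb, pow_mul' x 2 K, pow_mul' y 2 K]
    field_simp
  rw [e1, e2]
  exact mul_le_mul_of_nonneg_left h2 (by positivity)

theorem R_holder (K : ℕ) (hK : 2 ≤ K) (β : ℝ) (hβ : 0 < β) (W : ℝ → ℝ) (hW : Adm β W)
    (c1 c2 : ℝ) (hc1 : 0 < c1) (Ψ : ℂ → ℝ) (hΨ : Measurable Ψ) (hΨ0 : ∀ ξ, 0 < Ψ ξ) (ζ : ℂ) :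
    (∫⁻ ξ, vK c1 c2 Ψ ξ * vK c1 c2 Ψ (ξ - ζ) *
        ENNReal.ofReal (Wh β W (Real.log (Ψ ξ) - Real.log (Ψ (ξ - ζ))))) ^ K ≤
      (∫⁻ ξ, om K ξ * om K (ξ - ζ) * ENNReal.ofReal (Wh β W (rk K ξ (ξ - ζ)))) ^ (K - 1) *
      ∫⁻ ξ, om K ξ * om K (ξ - ζ) *
        (ENNReal.ofReal (1 / 2 * Aw β W (rk K ξ (ξ - ζ))) * HH c1 c2 Ψ K ξ +
         ENNReal.ofReal (1 / 2 * Aw β W (rk K (ξ - ζ) ξ)) * HH c1 c2 Ψ K (ξ - ζ)) := by
  obtain ⟨hWn, hAn, htan, hWc, hAc, -⟩ := Helper85.BP.P.Wh_ptw β hβ W hW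
  have hK0 : (0:ℝ) < K := by exact_mod_cast (by omega : 0 < K)
  set G : ℂ → ℝ≥0∞ := fun ξ => om K ξ * om K (ξ - ζ) * ENNReal.ofReal (Wh β W (rk K ξ (ξ - ζ)))
    with hG
  set H : ℂ → ℝ≥0∞ := fun ξ => om K ξ * om K (ξ - ζ) *
        (ENNReal.ofReal (1 / 2 * Aw β W (rk K ξ (ξ - ζ))) * HH c1 c2 Ψ K ξ +
         ENNReal.ofReal (1 / 2 * Aw β W (rk K (ξ - ζ) ξ)) * HH c1 c2 Ψ K (ξ - ζ)) with hH
  have hAnn : MeasurableSet (Ann c1 c2) :=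
    (measurableSet_le measurable_const measurable_norm).inter
      (measurableSet_le measurable_norm measurable_const)
  have hom : Measurable (om K) := by
    unfold om
    exact (measurable_norm.pow_const _).ennreal_ofReal
  have hHH : Measurable (HH c1 c2 Ψ K) := by
    unfold HH
    exact (Measurable.indicator (by fun_prop) hAnn)
  have hsub : Measurable (fun ξ : ℂ => ξ - ζ) := measurable_id.sub_const ζ
  have hrk : Measurable (fun ξ : ℂ => rk K ξ (ξ - ζ)) := by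
    unfold rk
    fun_prop
  have hrk' : Measurable (fun ξ : ℂ => rk K (ξ - ζ) ξ) := by
    unfold rk
    fun_prop
  have hGm : Measurable G :=
    (hom.mul (hom.comp hsub)).mul (hWc.measurable.comp hrk).ennreal_ofReal
  have hHm : Measurable H := by
    refine (hom.mul (hom.comp hsub)).mul (Measurable.add ?_ ?_)
    · exact ((hAc.measurable.comp hrk).const_mul _).ennreal_ofReal.mul hHH
    · exact ((hAc.measurable.comp hrk').const_mul _).ennreal_ofReal.mul (hHH.comp hsub)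
  have hpt : ∀ ξ, vK c1 c2 Ψ ξ * vK c1 c2 Ψ (ξ - ζ) *
        ENNReal.ofReal (Wh β W (Real.log (Ψ ξ) - Real.log (Ψ (ξ - ζ)))) ≤
        G ξ ^ (1 - 1 / (K:ℝ)) * H ξ ^ (1 / (K:ℝ)) := by
    intro ξ
    by_cases h1 : ξ ∈ Ann c1 c2
    swap
    · rw [vK, Set.indicator_of_notMem h1]
      simp
    by_cases h2 : ξ - ζ ∈ Ann c1 c2
    swap
    · rw [vK, vK, Set.indicator_of_notMem h2]
      simp
    have ha : 0 < ‖ξ‖ := lt_of_lt_of_le hc1 h1.1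
    have hb : 0 < ‖ξ - ζ‖ := lt_of_lt_of_le hc1 h2.1
    have key := q3_real K hK β hβ W hW ‖ξ‖ ‖ξ - ζ‖ (Ψ ξ) (Ψ (ξ - ζ)) ha hb (hΨ0 _) (hΨ0 _)
    set F0 := (‖ξ‖ ^ 2)⁻¹ * Ψ ξ * ((‖ξ - ζ‖ ^ 2)⁻¹ * Ψ (ξ - ζ)) *
      Wh β W (Real.log (Ψ ξ) - Real.log (Ψ (ξ - ζ))) with hF0
    set G0 := ‖ξ‖ ^ (1 / (K:ℝ) - 2) * ‖ξ - ζ‖ ^ (1 / (K:ℝ) - 2) *
        Wh β W ((1 / (K:ℝ)) * (Real.log ‖ξ‖ - Real.log ‖ξ - ζ‖)) with hG0
    set H0 := ‖ξ‖ ^ (1 / (K:ℝ) - 2) * ‖ξ - ζ‖ ^ (1 / (K:ℝ) - 2) *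
        (1 / 2 * Aw β W ((1 / (K:ℝ)) * (Real.log ‖ξ‖ - Real.log ‖ξ - ζ‖)) *
          ((‖ξ‖ ^ 2)⁻¹ * Ψ ξ ^ (2 * K)) +
         1 / 2 * Aw β W ((1 / (K:ℝ)) * (Real.log ‖ξ - ζ‖ - Real.log ‖ξ‖)) *
          ((‖ξ - ζ‖ ^ 2)⁻¹ * Ψ (ξ - ζ) ^ (2 * K))) with hH0
    have p1 := hΨ0 ξ
    have p2 := hΨ0 (ξ - ζ)
    have w1 := hWn (Real.log (Ψ ξ) - Real.log (Ψ (ξ - ζ)))
    have w2 := hWn ((1 / (K:ℝ)) * (Real.log ‖ξ‖ - Real.log ‖ξ - ζ‖))
    have a1 := hAn ((1 / (K:ℝ)) * (Real.log ‖ξ‖ - Real.log ‖ξ - ζ‖))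
    have a2 := hAn ((1 / (K:ℝ)) * (Real.log ‖ξ - ζ‖ - Real.log ‖ξ‖))
    have hF0n : 0 ≤ F0 := by positivity
    have hG0n : 0 ≤ G0 := by positivity
    have hH0n : 0 ≤ H0 := by positivity
    have eF : vK c1 c2 Ψ ξ * vK c1 c2 Ψ (ξ - ζ) *
        ENNReal.ofReal (Wh β W (Real.log (Ψ ξ) - Real.log (Ψ (ξ - ζ)))) = ENNReal.ofReal F0 := by
      rw [vK, vK, Set.indicator_of_mem h1, Set.indicator_of_mem h2, hF0,
        ENNReal.ofReal_mul (p := (‖ξ‖ ^ 2)⁻¹ * Ψ ξ * ((‖ξ - ζ‖ ^ 2)⁻¹ * Ψ (ξ - ζ))) (by positivity),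
        ENNReal.ofReal_mul (p := (‖ξ‖ ^ 2)⁻¹ * Ψ ξ) (by positivity)]
    have eG : G ξ = ENNReal.ofReal G0 := by
      rw [hG, hG0, ENNReal.ofReal_mul (by positivity), ENNReal.ofReal_mul (by positivity)]
      rfl
    have eH : H ξ = ENNReal.ofReal H0 := by
      rw [hH, hH0,
        ENNReal.ofReal_mul (p := ‖ξ‖ ^ (1 / (K:ℝ) - 2) * ‖ξ - ζ‖ ^ (1 / (K:ℝ) - 2)) (by positivity),
        ENNReal.ofReal_mul (p := ‖ξ‖ ^ (1 / (K:ℝ) - 2)) (by positivity),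
        ENNReal.ofReal_add (by positivity) (by positivity),
        ENNReal.ofReal_mul (p := 1 / 2 * Aw β W ((1 / (K:ℝ)) * (Real.log ‖ξ‖ - Real.log ‖ξ - ζ‖)))
          (by positivity),
        ENNReal.ofReal_mul (p := 1 / 2 * Aw β W ((1 / (K:ℝ)) * (Real.log ‖ξ - ζ‖ - Real.log ‖ξ‖)))
          (by positivity)]
      simp only [HH, Set.indicator_of_mem h1, Set.indicator_of_mem h2]
      rfl
    rw [eF, eG, eH]
    have hq : (0:ℝ) ≤ 1 - 1 / (K:ℝ) := by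
      rw [sub_nonneg, div_le_one hK0]
      exact_mod_cast (by omega : 1 ≤ K)
    rw [ENNReal.ofReal_rpow_of_nonneg hG0n hq, ENNReal.ofReal_rpow_of_nonneg hH0n (by positivity),
      ← ENNReal.ofReal_mul (by positivity)]
    apply ENNReal.ofReal_le_ofReal
    have hR : 0 ≤ G0 ^ (1 - 1 / (K:ℝ)) * H0 ^ (1 / (K:ℝ)) := by positivity
    rw [← pow_le_pow_iff_left₀ hF0n hR (n := K) (by omega)]
    refine key.trans (le_of_eq ?_)
    have u1 : (G0 ^ (1 - 1 / (K:ℝ))) ^ K = G0 ^ (K - 1) := by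
      rw [← Real.rpow_natCast, ← Real.rpow_mul hG0n,
        show (1 - 1 / (K:ℝ)) * (K:ℝ) = ((K - 1 : ℕ) : ℝ) by
          rw [Nat.cast_sub (by omega)]; push_cast; field_simp, Real.rpow_natCast]
    have u2 : (H0 ^ (1 / (K:ℝ))) ^ K = H0 := by
      rw [← Real.rpow_natCast, ← Real.rpow_mul hH0n,
        show 1 / (K:ℝ) * (K:ℝ) = 1 by field_simp, Real.rpow_one]
    rw [mul_pow (G0 ^ (1 - 1 / (K:ℝ))), u1, u2]
  have hq : (0:ℝ) ≤ 1 - 1 / (K:ℝ) := by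
    rw [sub_nonneg, div_le_one hK0]
    exact_mod_cast (by omega : 1 ≤ K)
  have hhol := ENNReal.lintegral_mul_norm_pow_le (μ := (volume : Measure ℂ)) hGm.aemeasurable
    hHm.aemeasurable hq (by positivity : (0:ℝ) ≤ 1 / (K:ℝ)) (by ring)
  calc _ ≤ ((∫⁻ ξ, G ξ) ^ (1 - 1 / (K:ℝ)) * (∫⁻ ξ, H ξ) ^ (1 / (K:ℝ))) ^ K :=
        pow_le_pow_left' ((lintegral_mono hpt).trans hhol) K
    _ = (∫⁻ ξ, G ξ) ^ (K - 1) * ∫⁻ ξ, H ξ := by
        rw [mul_pow, ← ENNReal.rpow_natCast, ← ENNReal.rpow_mul, ← ENNReal.rpow_natCast,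
          ← ENNReal.rpow_mul, show (1 - 1 / (K:ℝ)) * (K:ℝ) = ((K - 1 : ℕ) : ℝ) by
            rw [Nat.cast_sub (by omega)]; push_cast; field_simp,
          show 1 / (K:ℝ) * (K:ℝ) = 1 by field_simp, ENNReal.rpow_one, ENNReal.rpow_natCast]

end Helper72.BQ.P
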