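import Pool.Agent.Helper72.BQ.Defs
import Pool.Agent.Helper85.BPM.K1
import Pool.Agent.Helper85.BPM.K2
import Pool.Agent.Helper85.BPM.K3

/-!
# BQ module Q4a (MP_3dd6d4_an, helper85)
-/

set_option autoImplicit false

open MeasureTheory Complex FourierTransform Filter Topology
open scoped ENNReal NNReal ComplexConjugate

noncomputable section

namespace Helper72.BQ.P

open Helper72.BA Helper85.BP Helper72.BQ

/-- the exponent on the line -/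
def Q4_a (K : ℕ) (β τ : ℝ) : ℂ := ((1 / (K:ℝ) : ℝ) : ℂ) + I * ((β * τ / K : ℝ) : ℂ)

theorem Q4_re (K : ℕ) (β τ : ℝ) : (Q4_a K β τ).re = 1 / (K:ℝ) := by
  unfold Q4_a
  rw [Complex.add_re, Complex.ofReal_re, Complex.re_mul_ofReal, Complex.I_re, zero_mul, add_zero]

theorem Q4_conj (K : ℕ) (β τ : ℝ) :
    conj (Q4_a K β τ) = ((1 / (K:ℝ) : ℝ) : ℂ) - I * ((β * τ / K : ℝ) : ℂ) := by
  unfold Q4_a
  simp only [map_add, map_mul, Complex.conj_ofReal, Complex.conj_I]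
  ring

theorem Q4_cre (K : ℕ) (β τ : ℝ) : (conj (Q4_a K β τ)).re = 1 / (K:ℝ) := by
  rw [Complex.conj_re, Q4_re]

theorem Gx_conj (a : ℂ) : Gx (conj a) = conj (Gx a) := by
  unfold Gx
  have h2 : conj a / 2 = conj (a / 2) := by
    rw [map_div₀, Complex.conj_ofNat]
  have h3 : (1 : ℂ) - conj (a / 2) = conj (1 - a / 2) := by
    rw [map_sub, map_one]
  rw [h2, h3, Complex.Gamma_conj, Complex.Gamma_conj, map_div₀, map_mul, Complex.conj_ofReal]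

theorem cpw_pol (x σ : ℝ) (z : ℂ) (hz : z ≠ 0) :
    cpw ((x : ℂ) + I * (σ : ℂ)) z = ((‖z‖ ^ (x - 2) : ℝ) : ℂ) *
      Complex.exp (((σ * Real.log ‖z‖ : ℝ) : ℂ) * I) := by
  have h0 : 0 < ‖z‖ := norm_pos_iff.2 hz
  have h1 : (‖z‖ : ℂ) ≠ 0 := by exact_mod_cast h0.ne'
  unfold cpw
  rw [Complex.cpow_def_of_ne_zero h1, Real.rpow_def_of_pos h0, ← Complex.ofReal_log h0.le]
  push_cast
  rw [← Complex.exp_add]
  congr 1
  ring

theorem Q4_pair (K : ℕ) (β τ : ℝ) (ξ η : ℂ) (hξ : ξ ≠ 0) (hη : η ≠ 0) :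
    cpw (Q4_a K β τ) ξ * cpw (conj (Q4_a K β τ)) η =
      ((‖ξ‖ ^ (1 / (K:ℝ) - 2) * ‖η‖ ^ (1 / (K:ℝ) - 2) : ℝ) : ℂ) *
      Complex.exp (((-(β * τ * -rk K ξ η) : ℝ) : ℂ) * I) := by
  have e : conj (Q4_a K β τ) = ((1 / (K:ℝ) : ℝ) : ℂ) + I * ((-(β * τ / K) : ℝ) : ℂ) := by
    rw [Q4_conj]
    push_cast
    ring
  rw [e]
  unfold Q4_a
  rw [cpw_pol _ _ ξ hξ, cpw_pol _ _ η hη]
  have h : Complex.exp (((-(β * τ * -rk K ξ η) : ℝ) : ℂ) * I) =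
      Complex.exp (((β * τ / K * Real.log ‖ξ‖ : ℝ) : ℂ) * I) *
      Complex.exp (((-(β * τ / K) * Real.log ‖η‖ : ℝ) : ℂ) * I) := by
    rw [← Complex.exp_add]
    congr 1
    unfold rk
    push_cast
    ring
  rw [h]
  push_cast
  ring

theorem Q4_meas (K : ℕ) (β : ℝ) (W : ℝ → ℝ) (hc : Continuous W) (ζ : ℂ) :
    Measurable (fun q : ℂ × ℝ => (W q.2 : ℂ) *
      (cpw (Q4_a K β q.2) q.1 * cpw (conj (Q4_a K β q.2)) (ζ - q.1))) := by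
  have hW : Measurable (fun q : ℂ × ℝ => (W q.2 : ℂ)) := by
    have := hc.measurable
    fun_prop
  have ha : Measurable (fun q : ℂ × ℝ => Q4_a K β q.2) := by
    unfold Q4_a
    fun_prop
  have hb : Measurable (fun q : ℂ × ℝ => conj (Q4_a K β q.2)) :=
    Complex.continuous_conj.measurable.comp ha
  unfold cpw
  apply hW.mul
  apply Measurable.mul
  · apply Measurable.pow
    · fun_prop
    · exact ha.sub_const 2
  · apply Measurable.pow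
    · fun_prop
    · exact hb.sub_const 2

theorem Gc_pos' (s : ℝ) (h1 : 0 < s) (h2 : s < 2) : 0 < Gc s := by
  unfold Gc
  exact div_pos (mul_pos Real.pi_pos (Real.Gamma_pos_of_pos (by linarith)))
    (Real.Gamma_pos_of_pos (by linarith))

theorem Wh_neg (β : ℝ) (W : ℝ → ℝ) (s : ℝ) : Wh β W (-s) = Wh β W s := by
  unfold Wh
  congr 1
  funext τ
  rw [mul_neg, Real.cos_neg]

theorem rk_meas (K : ℕ) (ζ : ℂ) : Measurable fun ξ => rk K ξ (ξ - ζ) := by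
  unfold rk
  have h1 : Measurable fun ξ : ℂ => Real.log ‖ξ‖ := Real.measurable_log.comp measurable_norm
  have h2 : Measurable fun ξ : ℂ => Real.log ‖ξ - ζ‖ :=
    Real.measurable_log.comp ((measurable_id.sub_const ζ).norm)
  exact (h1.sub h2).const_mul _

theorem Theta_eval (K : ℕ) (hK : 2 ≤ K) (β : ℝ) (hβ : 0 < β) (W : ℝ → ℝ) (hW : Adm β W)
    (ζ : ℂ) (hζ : ζ ≠ 0) :
    ∫⁻ ξ, om K ξ * om K (ξ - ζ) * ENNReal.ofReal (Wh β W (rk K ξ (ξ - ζ))) =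
      ENNReal.ofReal (cW K β W / Gc (2 / (K:ℝ))) * ‖ζ‖ₑ ^ (2 / (K:ℝ) - 2) := by
  have hK' : (2 : ℝ) ≤ K := by exact_mod_cast hK
  have hKp : (0:ℝ) < K := by linarith
  have hk0 : 0 < 1 / (K:ℝ) := by positivity
  have hk1 : 1 / (K:ℝ) ≤ 1 / 2 := one_div_le_one_div_of_le (by norm_num) hK'
  obtain ⟨hWh0, -, -, hWc, -, ⟨C, hC⟩, -⟩ := Helper85.BP.P.Wh_ptw β hβ W hW
  have hWi := Helper85.BP.P.K3_W_int β W hW
  -- integrability of the product of powers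
  have hg : Integrable (fun ξ : ℂ => ‖ξ‖ ^ (1 / (K:ℝ) - 2) * ‖ζ - ξ‖ ^ (1 / (K:ℝ) - 2)) :=
    Helper85.BP.P.int_real (1 / K) (1 / K) hk0 hk0 (by linarith) ζ hζ
  -- the joint function
  set f : ℂ × ℝ → ℂ := fun q => (W q.2 : ℂ) *
      (cpw (Q4_a K β q.2) q.1 * cpw (conj (Q4_a K β q.2)) (ζ - q.1)) with hf
  have hfi : Integrable f (volume.prod volume) := by
    have h1 := hg.mul_prod hWi
    refine h1.mono' (Q4_meas K β W hW.cont ζ).aestronglyMeasurable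
      (Eventually.of_forall fun q => ?_)
    rw [hf]
    simp only
    rw [norm_mul, norm_mul, Helper85.BP.P.cpw_norm (by rw [Q4_re]; linarith),
      Helper85.BP.P.cpw_norm (by rw [Q4_cre]; linarith), Q4_re, Q4_cre, Complex.norm_real,
      Real.norm_of_nonneg (hW.nonneg _)]
    exact (mul_comm _ _).le
  have hswap := integral_integral_swap (f := fun ξ τ => f (ξ, τ)) hfi
  -- the inner integral in `ξ`
  have hR : ∀ τ, ∫ ξ, f (ξ, τ) = (((W τ * ‖Gx (Q4_a K β τ)‖ ^ 2 : ℝ) : ℂ)) *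
      (((1 / Gc (2 / (K:ℝ)) * ‖ζ‖ ^ (2 / (K:ℝ) - 2) : ℝ) : ℂ)) := by
    intro τ
    rw [hf]
    simp only
    rw [integral_const_mul, (Helper85.BP.P.riesz_cx (Q4_a K β τ) (conj (Q4_a K β τ))
      (by rw [Q4_re]; exact hk0) (by rw [Q4_cre]; exact hk0)
      (by rw [Q4_re, Q4_cre]; linarith) ζ hζ).2]
    have e1 : Q4_a K β τ + conj (Q4_a K β τ) = ((2 / (K:ℝ) : ℝ) : ℂ) := by
      rw [Complex.add_conj, Q4_re]
      congr 1
      ring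
    rw [e1, Helper85.BP.P.Gx_real, Helper85.BP.P.cpw_real, Gx_conj, Complex.mul_conj,
      Complex.normSq_eq_norm_sq]
    push_cast
    ring
  -- the inner integral in `τ`
  have hL : ∀ᵐ ξ : ℂ, ∫ τ, f (ξ, τ) = ((‖ξ‖ ^ (1 / (K:ℝ) - 2) * ‖ζ - ξ‖ ^ (1 / (K:ℝ) - 2) *
      Wh β W (rk K ξ (ξ - ζ)) : ℝ) : ℂ) := by
    filter_upwards [Helper85.BP.P.ae_ne_two ζ] with ξ hξ
    rw [hf]
    simp only
    have e1 : ∀ τ, (W τ : ℂ) * (cpw (Q4_a K β τ) ξ * cpw (conj (Q4_a K β τ)) (ζ - ξ)) =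
        ((‖ξ‖ ^ (1 / (K:ℝ) - 2) * ‖ζ - ξ‖ ^ (1 / (K:ℝ) - 2) : ℝ) : ℂ) *
        ((W τ : ℂ) * Complex.exp (((-(β * τ * -rk K ξ (ζ - ξ)) : ℝ) : ℂ) * I)) := by
      intro τ
      rw [Q4_pair K β τ ξ (ζ - ξ) hξ.1 hξ.2]
      ring
    simp_rw [e1]
    rw [integral_const_mul, Helper85.BP.P.K3_Wh β W hW, Wh_neg]
    have e2 : rk K ξ (ζ - ξ) = rk K ξ (ξ - ζ) := by
      unfold rk
      rw [norm_sub_rev]
    rw [e2]
    push_cast
    ring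
  rw [integral_congr_ae hL] at hswap
  have hR' : ∫ τ, ∫ ξ, f (ξ, τ) = (((cW K β W) * (1 / Gc (2 / (K:ℝ)) *
      ‖ζ‖ ^ (2 / (K:ℝ) - 2)) : ℝ) : ℂ) := by
    simp_rw [hR]
    have ecW : cW K β W = ∫ τ, W τ * ‖Gx (Q4_a K β τ)‖ ^ 2 := rfl
    rw [integral_mul_const, integral_complex_ofReal, ← ecW, ← Complex.ofReal_mul]
  rw [hR', integral_complex_ofReal] at hswap
  have hval : ∫ ξ : ℂ, ‖ξ‖ ^ (1 / (K:ℝ) - 2) * ‖ζ - ξ‖ ^ (1 / (K:ℝ) - 2) *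
      Wh β W (rk K ξ (ξ - ζ)) = cW K β W * (1 / Gc (2 / (K:ℝ)) * ‖ζ‖ ^ (2 / (K:ℝ) - 2)) := by
    exact_mod_cast hswap
  -- back to the lower integral
  have hnn : ∀ ξ : ℂ, 0 ≤ ‖ξ‖ ^ (1 / (K:ℝ) - 2) * ‖ζ - ξ‖ ^ (1 / (K:ℝ) - 2) *
      Wh β W (rk K ξ (ξ - ζ)) := fun ξ =>
    mul_nonneg (mul_nonneg (Real.rpow_nonneg (norm_nonneg _) _)
      (Real.rpow_nonneg (norm_nonneg _) _)) (hWh0 _)
  have hint : Integrable (fun ξ : ℂ => ‖ξ‖ ^ (1 / (K:ℝ) - 2) * ‖ζ - ξ‖ ^ (1 / (K:ℝ) - 2) *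
      Wh β W (rk K ξ (ξ - ζ))) := by
    refine (hg.mul_const C).mono' ?_ (Eventually.of_forall fun ξ => ?_)
    · exact (hg.aestronglyMeasurable).mul
        ((hWc.measurable.comp (rk_meas K ζ)).aestronglyMeasurable)
    · rw [Real.norm_of_nonneg (hnn ξ)]
      exact mul_le_mul_of_nonneg_left (hC _) (mul_nonneg (Real.rpow_nonneg (norm_nonneg _) _)
        (Real.rpow_nonneg (norm_nonneg _) _))
  have hlint := ofReal_integral_eq_lintegral_ofReal hint (Eventually.of_forall hnn)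
  rw [hval] at hlint
  have e3 : ∀ ξ : ℂ, om K ξ * om K (ξ - ζ) * ENNReal.ofReal (Wh β W (rk K ξ (ξ - ζ))) =
      ENNReal.ofReal (‖ξ‖ ^ (1 / (K:ℝ) - 2) * ‖ζ - ξ‖ ^ (1 / (K:ℝ) - 2) *
      Wh β W (rk K ξ (ξ - ζ))) := by
    intro ξ
    unfold om
    rw [ENNReal.ofReal_mul (mul_nonneg (Real.rpow_nonneg (norm_nonneg _) _)
      (Real.rpow_nonneg (norm_nonneg _) _)), ENNReal.ofReal_mul (Real.rpow_nonneg (norm_nonneg _) _),
      norm_sub_rev ζ ξ]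
  simp_rw [e3]
  rw [← hlint]
  have hz : 0 < ‖ζ‖ := norm_pos_iff.2 hζ
  have hcW : 0 ≤ cW K β W := by
    unfold cW
    exact integral_nonneg fun τ => mul_nonneg (hW.nonneg τ) (by positivity)
  have hGc := Gc_pos' (2 / (K:ℝ)) (by positivity) (by
    rw [div_lt_iff₀ hKp]
    linarith)
  rw [← ofReal_norm (E := ℂ), ENNReal.ofReal_rpow_of_pos hz,
    ← ENNReal.ofReal_mul (div_nonneg hcW hGc.le)]
  congr 1
  ring

end Helper72.BQ.P
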