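import Pool.Agent.Helper72.BQM.Q1
import Pool.Agent.Helper72.BQM.Q2
import Pool.Agent.Helper72.BQM.Q3
import Pool.Agent.Helper72.BQM.Q4a
import Pool.Agent.Helper72.BQM.Q4b
import Pool.Agent.Helper72.BAM.PT2
import Pool.Agent.Helper85.BPM.I1
import Pool.Agent.Helper85.BPM.K6

/-!
MP_3dd6d4_an, module BQ Q5 (helper72): the sharp key lemma.
-/

set_option autoImplicit false

open MeasureTheory Complex FourierTransform Filter Topology
open scoped ENNReal NNReal ComplexConjugate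

noncomputable section

namespace Helper72.BQ.P

open Helper72.BA Helper85.BP Helper85.BP.P

theorem lc_monoK {a a' b b' : ℂ → ℝ≥0∞} (ha : ∀ z, a z ≤ a' z) (hb : ∀ z, b z ≤ b' z) (z : ℂ) :
    lc a b z ≤ lc a' b' z :=
  lintegral_mono fun t => mul_le_mul' (ha t) (hb (z - t))

theorem lcp_monoK {a a' : ℂ → ℝ≥0∞} (ha : ∀ z, a z ≤ a' z) (j : ℕ) (z : ℂ) :
    lcp a j z ≤ lcp a' j z := by
  induction j generalizing z with
  | zero => exact ha z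
  | succ j ih => exact lc_monoK ih ha z

theorem Gc_refl (a : ℝ) (h0 : 0 < a) (h2 : a < 2) : Gc a * Gc (2 - a) = Real.pi ^ 2 := by
  unfold Gc
  have h1 : Real.Gamma (a / 2) ≠ 0 := (Real.Gamma_pos_of_pos (by linarith)).ne'
  have h3 : Real.Gamma (1 - a / 2) ≠ 0 := (Real.Gamma_pos_of_pos (by linarith)).ne'
  have e1 : (2 - a) / 2 = 1 - a / 2 := by ring
  have e2 : 1 - (2 - a) / 2 = a / 2 := by ring
  rw [e2, e1]
  generalize Real.Gamma (a / 2) = u at h1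
  generalize Real.Gamma (1 - a / 2) = v at h3
  field_simp

section

variable {Y : Type*} [MeasurableSpace Y] {ν : Measure Y} {c1 c2 : ℝ} {U : ℂ → Y → ℂ} {Ψ : ℂ → ℝ}

theorem UDpos (hU : UD ν c1 c2 U Ψ) (ξ : ℂ) : 0 < Ψ ξ := by
  obtain ⟨c, hc, h⟩ := hU.Ψlow
  exact hc.trans_le (h ξ)

/-- the weighted measure on `ℝ` -/
def muW (W : ℝ → ℝ) : Measure ℝ := volume.withDensity (fun τ => ENNReal.ofReal (W τ))

theorem W_intK {β : ℝ} {W : ℝ → ℝ} (hW : Adm β W) : Integrable W := by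
  refine Integrable.mono' hW.int hW.cont.aestronglyMeasurable (Eventually.of_forall fun τ => ?_)
  rw [Real.norm_eq_abs, abs_of_nonneg (hW.nonneg τ)]
  have := mul_nonneg (by positivity : 0 ≤ β ^ 2 * τ ^ 2) (hW.nonneg τ)
  linarith

theorem muW_fin {β : ℝ} {W : ℝ → ℝ} (hW : Adm β W) : IsFiniteMeasure (muW W) := by
  refine ⟨?_⟩
  rw [muW, withDensity_apply _ MeasurableSet.univ, Measure.restrict_univ]
  exact (W_intK hW).lintegral_lt_top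

/-- the modulated function on `ℝ × Y` -/
def Um (β : ℝ) (U : ℂ → Y → ℂ) (Ψ : ℂ → ℝ) (ξ : ℂ) (t : ℝ × Y) : ℂ :=
  U ξ t.2 * Complex.exp (-(I * ((β * t.1 : ℝ) : ℂ)) * (Real.log (Ψ ξ) : ℂ))

omit [MeasurableSpace Y] in
theorem Um_norm (β : ℝ) (U : ℂ → Y → ℂ) (Ψ : ℂ → ℝ) (ξ : ℂ) (t : ℝ × Y) :
    ‖Um β U Ψ ξ t‖ = ‖U ξ t.2‖ := by
  unfold Um
  rw [norm_mul, Complex.norm_exp]
  simp

theorem Um_meas (hU : UD ν c1 c2 U Ψ) (β : ℝ) : Measurable (Function.uncurry (Um β U Ψ)) := by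
  unfold Um
  have m1 : Measurable (fun q : ℂ × (ℝ × Y) => U q.1 q.2.2) :=
    hU.meas.comp (measurable_fst.prodMk (measurable_snd.comp measurable_snd))
  have m2 : Measurable (fun q : ℂ × (ℝ × Y) => Real.log (Ψ q.1)) :=
    (hU.Ψmeas.comp measurable_fst).log
  have m3 : Measurable (fun q : ℂ × (ℝ × Y) => q.2.1) := measurable_fst.comp measurable_snd
  have m4 : Measurable (fun q : ℂ × (ℝ × Y) =>
      Complex.exp (-(I * ((β * q.2.1 : ℝ) : ℂ)) * (Real.log (Ψ q.1) : ℂ))) := by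
    fun_prop
  exact m1.mul m4

/-- the inner product kernel -/
theorem Um_inner [IsFiniteMeasure ν] (hU : UD ν c1 c2 U Ψ) (β : ℝ) (W : ℝ → ℝ) (hW : Adm β W)
    (hWh : ∀ s, 0 ≤ Wh β W s) (ξ η : ℂ) :
    ‖∫ t, Um β U Ψ ξ t * conj (Um β U Ψ η t) ∂((muW W).prod ν)‖ₑ ≤
      vK c1 c2 Ψ ξ * vK c1 c2 Ψ η * ENNReal.ofReal (Wh β W (Real.log (Ψ ξ) - Real.log (Ψ η))) := by
  have := muW_fin hW
  set s : ℝ := Real.log (Ψ ξ) - Real.log (Ψ η) with hs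
  have e1 : ∀ t : ℝ × Y, Um β U Ψ ξ t * conj (Um β U Ψ η t) =
      Complex.exp (-(I * ((β * t.1 * s : ℝ) : ℂ))) * (U ξ t.2 * conj (U η t.2)) := by
    intro t
    unfold Um
    rw [map_mul, ← Complex.exp_conj]
    have : Complex.exp (-(I * ((β * t.1 * s : ℝ) : ℂ))) =
        Complex.exp (-(I * ((β * t.1 : ℝ) : ℂ)) * (Real.log (Ψ ξ) : ℂ)) *
        Complex.exp (conj (-(I * ((β * t.1 : ℝ) : ℂ)) * (Real.log (Ψ η) : ℂ))) := by
      rw [← Complex.exp_add]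
      congr 1
      simp only [map_mul, map_neg, Complex.conj_I, Complex.conj_ofReal, hs]
      push_cast
      ring
    rw [this]
    ring
  simp_rw [e1]
  rw [integral_prod_mul (μ := muW W) (ν := ν)
    (fun τ : ℝ => Complex.exp (-(I * ((β * τ * s : ℝ) : ℂ))))
    (fun y : Y => U ξ y * conj (U η y)), enorm_mul]
  have h1 : ∫ τ, Complex.exp (-(I * ((β * τ * s : ℝ) : ℂ))) ∂(muW W) = ((Wh β W s : ℝ) : ℂ) := by
    have hWm : Measurable (fun τ => (W τ).toNNReal) := hW.cont.measurable.real_toNNReal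
    have e2 : muW W = volume.withDensity (fun τ => (((W τ).toNNReal : ℝ≥0) : ℝ≥0∞)) := rfl
    rw [e2, integral_withDensity_eq_integral_smul hWm]
    have e3 : ∀ τ : ℝ, (W τ).toNNReal • Complex.exp (-(I * ((β * τ * s : ℝ) : ℂ))) =
        ((W τ * Real.cos (β * τ * s) : ℝ) : ℂ) - I * ((W τ * Real.sin (β * τ * s) : ℝ) : ℂ) := by
      intro τ
      rw [NNReal.smul_def, Real.coe_toNNReal _ (hW.nonneg τ), Complex.real_smul]
      have : -(I * ((β * τ * s : ℝ) : ℂ)) = ((-(β * τ * s) : ℝ) : ℂ) * I := by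
        push_cast; ring
      rw [this, Complex.exp_mul_I, ← Complex.ofReal_cos, ← Complex.ofReal_sin, Real.cos_neg,
        Real.sin_neg]
      push_cast
      ring
    simp_rw [e3]
    have i1 : Integrable (fun τ : ℝ => W τ * Real.cos (β * τ * s)) := by
      refine (W_intK hW).mul_bdd (c := 1) (by fun_prop) (Eventually.of_forall fun τ => ?_)
      rw [Real.norm_eq_abs]; exact Real.abs_cos_le_one _
    have i2 : Integrable (fun τ : ℝ => W τ * Real.sin (β * τ * s)) := by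
      refine (W_intK hW).mul_bdd (c := 1) (by fun_prop) (Eventually.of_forall fun τ => ?_)
      rw [Real.norm_eq_abs]; exact Real.abs_sin_le_one _
    have i1' : Integrable (fun τ : ℝ => ((W τ * Real.cos (β * τ * s) : ℝ) : ℂ)) := i1.ofReal
    have i2' : Integrable (fun τ : ℝ => I * ((W τ * Real.sin (β * τ * s) : ℝ) : ℂ)) :=
      i2.ofReal.const_mul I
    rw [integral_sub i1' i2', integral_const_mul, integral_complex_ofReal,
      integral_complex_ofReal]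
    have h0 : ∫ τ, W τ * Real.sin (β * τ * s) = 0 := by
      have h := integral_neg_eq_self (fun τ : ℝ => W τ * Real.sin (β * τ * s)) volume
      have e4 : ∀ τ : ℝ, W (-τ) * Real.sin (β * -τ * s) = -(W τ * Real.sin (β * τ * s)) := by
        intro τ
        rw [hW.even, show β * -τ * s = -(β * τ * s) by ring, Real.sin_neg]
        ring
      simp_rw [e4] at h
      rw [integral_neg] at h
      linarith
    rw [h0]
    simp only [Complex.ofReal_zero, mul_zero, sub_zero]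
    rfl
  rw [h1]
  have h2 : ‖((Wh β W s : ℝ) : ℂ)‖ₑ = ENNReal.ofReal (Wh β W s) := by
    rw [← ofReal_norm, Complex.norm_real, Real.norm_of_nonneg (hWh s)]
  rw [h2, mul_comm]
  refine mul_le_mul_left ?_ _
  -- Cauchy–Schwarz in `y`
  have mξ : Measurable (fun y => U ξ y) := hU.meas.comp measurable_prodMk_left
  have mη : Measurable (fun y => U η y) := hU.meas.comp measurable_prodMk_left
  have hv : ∀ ζ, (∫⁻ y, ‖U ζ y‖ₑ ^ 2 ∂ν) ^ (1 / 2 : ℝ) ≤ vK c1 c2 Ψ ζ := by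
    intro ζ
    unfold vK
    by_cases hζ : ζ ∈ Ann c1 c2
    · rw [Set.indicator_of_mem hζ]
      have hp := UDpos hU ζ
      calc (∫⁻ y, ‖U ζ y‖ₑ ^ 2 ∂ν) ^ (1 / 2 : ℝ)
          ≤ (ENNReal.ofReal (((‖ζ‖ ^ 2)⁻¹ * Ψ ζ) ^ 2)) ^ (1 / 2 : ℝ) :=
            ENNReal.rpow_le_rpow (hU.dom ζ) (by norm_num)
        _ = ENNReal.ofReal ((‖ζ‖ ^ 2)⁻¹ * Ψ ζ) := by
            rw [ENNReal.ofReal_pow (by positivity), ← ENNReal.rpow_natCast, ← ENNReal.rpow_mul]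
            norm_num
    · rw [Set.indicator_of_notMem hζ]
      have h : ∀ y, U ζ y = 0 := by
        intro y
        apply hU.supp
        unfold Ann at hζ
        simp only [Set.mem_ofPred_eq, not_and_or, not_le] at hζ
        exact hζ
      simp [h]
  calc ‖∫ y, U ξ y * conj (U η y) ∂ν‖ₑ ≤ ∫⁻ y, ‖U ξ y * conj (U η y)‖ₑ ∂ν :=
        enorm_integral_le_lintegral_enorm _
    _ = ∫⁻ y, ‖U ξ y‖ₑ * ‖U η y‖ₑ ∂ν := by
        refine lintegral_congr fun y => ?_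
        rw [enorm_mul]
        congr 1
        rw [← ofReal_norm, Complex.norm_conj, ofReal_norm]
    _ ≤ (∫⁻ y, ‖U ξ y‖ₑ ^ 2 ∂ν) ^ (1/2 : ℝ) * (∫⁻ y, ‖U η y‖ₑ ^ 2 ∂ν) ^ (1/2 : ℝ) :=
        I1_sq_rpow_half ν _ _ mξ mη
    _ ≤ vK c1 c2 Ψ ξ * vK c1 c2 Ψ η := mul_le_mul' (hv ξ) (hv η)

end

/-! ### assembly -/

theorem om_measK (K : ℕ) : Measurable (om K) := by
  unfold om
  fun_prop

theorem Ann_measK (c1 c2 : ℝ) : MeasurableSet (Ann c1 c2) := by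
  unfold Ann
  exact (measurableSet_le measurable_const measurable_norm).inter
    (measurableSet_le measurable_norm measurable_const)

theorem vK_measK (c1 c2 : ℝ) {Ψ : ℂ → ℝ} (hΨ : Measurable Ψ) : Measurable (vK c1 c2 Ψ) := by
  unfold vK
  exact Measurable.indicator (by fun_prop) (Ann_measK c1 c2)

theorem HH_measK (c1 c2 : ℝ) {Ψ : ℂ → ℝ} (hΨ : Measurable Ψ) (K : ℕ) :
    Measurable (HH c1 c2 Ψ K) := by
  unfold HH
  exact Measurable.indicator (by fun_prop) (Ann_measK c1 c2)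

theorem rk_measK (K : ℕ) : Measurable (fun q : ℂ × ℂ => rk K q.1 q.2) := by
  unfold rk
  fun_prop

/-- the kernel `R` -/
def Rf (c1 c2 : ℝ) (Ψ : ℂ → ℝ) (β : ℝ) (W : ℝ → ℝ) (ζ : ℂ) : ℝ≥0∞ :=
  ∫⁻ ξ, vK c1 c2 Ψ ξ * vK c1 c2 Ψ (ξ - ζ) *
    ENNReal.ofReal (Wh β W (Real.log (Ψ ξ) - Real.log (Ψ (ξ - ζ))))

theorem Rf_meas (c1 c2 : ℝ) {Ψ : ℂ → ℝ} (hΨ : Measurable Ψ) (β : ℝ) (W : ℝ → ℝ)
    (hc : Continuous (Wh β W)) : Measurable (Rf c1 c2 Ψ β W) := by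
  unfold Rf
  have m1 := vK_measK c1 c2 hΨ
  have m2 : Measurable (fun q : ℂ × ℂ => q.1 - q.2) := measurable_fst.sub measurable_snd
  have m3 : Measurable (Wh β W) := hc.measurable
  have m : Measurable (fun q : ℂ × ℂ => vK c1 c2 Ψ q.1 * vK c1 c2 Ψ (q.1 - q.2) *
      ENNReal.ofReal (Wh β W (Real.log (Ψ q.1) - Real.log (Ψ (q.1 - q.2))))) :=
    ((m1.comp measurable_fst).mul (m1.comp m2)).mul (m3.comp
      (((hΨ.comp measurable_fst).log).sub ((hΨ.comp m2).log))).ennreal_ofReal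
  exact m.lintegral_prod_left'

/-- the function `E` -/
def Ef (c1 c2 : ℝ) (Ψ : ℂ → ℝ) (K : ℕ) (β : ℝ) (W : ℝ → ℝ) (ζ : ℂ) : ℝ≥0∞ :=
  ∫⁻ ξ, om K ξ * om K (ξ - ζ) *
        (ENNReal.ofReal (1 / 2 * Aw β W (rk K ξ (ξ - ζ))) * HH c1 c2 Ψ K ξ +
         ENNReal.ofReal (1 / 2 * Aw β W (rk K (ξ - ζ) ξ)) * HH c1 c2 Ψ K (ξ - ζ))

theorem E_half (K : ℕ) (hK : 2 ≤ K) (β : ℝ) (hβ : 0 < β) (W : ℝ → ℝ) (hW : Adm β W)
    (ξ : ℂ) (hξ : ξ ≠ 0) :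
    ∫⁻ η, om K η * ENNReal.ofReal (1 / 2 * Aw β W (rk K ξ η)) * ‖ξ - η‖ₑ ^ (-(2 / (K:ℝ))) =
      ENNReal.ofReal (1 / 2) * (ENNReal.ofReal (Gc (2 - 2 / (K:ℝ)) / Real.pi ^ 2 * cW K β W) *
        ‖ξ‖ₑ ^ (-(1 / (K:ℝ)))) := by
  rw [← E_eval K hK β hβ W hW ξ hξ, ← lintegral_const_mul' _ _ ENNReal.ofReal_ne_top]
  refine lintegral_congr fun η => ?_
  rw [ENNReal.ofReal_mul (by norm_num)]
  ring

/-- the symmetric double integral -/
theorem sym_int (a H w : ℂ → ℝ≥0∞) (k : ℂ → ℂ → ℝ≥0∞) (ha : Measurable a) (hH : Measurable H)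
    (hw : Measurable w) (hk : Measurable (Function.uncurry k)) (hws : ∀ ζ, w (-ζ) = w ζ) :
    ∫⁻ ζ, w ζ * ∫⁻ ξ, a ξ * a (ξ - ζ) * (k ξ (ξ - ζ) * H ξ + k (ξ - ζ) ξ * H (ξ - ζ)) =
      2 * ∫⁻ ξ, a ξ * H ξ * ∫⁻ η, a η * k ξ η * w (ξ - η) := by
  set g : ℂ → ℂ → ℝ≥0∞ := fun ξ η => a ξ * H ξ * (a η * k ξ η * w (ξ - η)) with hg
  have mg : Measurable (Function.uncurry g) := by
    have a1 : Measurable (fun q : ℂ × ℂ => a q.1 * H q.1) :=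
      (ha.comp measurable_fst).mul (hH.comp measurable_fst)
    have a3 : Measurable (fun q : ℂ × ℂ => a q.2) := ha.comp measurable_snd
    have a5 : Measurable (fun q : ℂ × ℂ => w (q.1 - q.2)) :=
      hw.comp (measurable_fst.sub measurable_snd)
    exact a1.mul ((a3.mul hk).mul a5)
  have hR : ∫⁻ ξ, a ξ * H ξ * ∫⁻ η, a η * k ξ η * w (ξ - η) = ∫⁻ ξ, ∫⁻ η, g ξ η := by
    refine lintegral_congr fun ξ => ?_
    have m5 : Measurable (fun η : ℂ => a η * k ξ η * w (ξ - η)) := by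
      have a4 : Measurable (fun η : ℂ => k ξ η) := hk.comp (measurable_const.prodMk measurable_id)
      have a5 : Measurable (fun η : ℂ => w (ξ - η)) := hw.comp (measurable_const.sub measurable_id)
      exact (ha.mul a4).mul a5
    rw [hg, lintegral_const_mul _ m5]
  have hsplit : ∀ ζ, w ζ * ∫⁻ ξ, a ξ * a (ξ - ζ) * (k ξ (ξ - ζ) * H ξ + k (ξ - ζ) ξ * H (ξ - ζ)) =
      (∫⁻ ξ, g ξ (ξ - ζ)) + ∫⁻ ξ, g (ξ - ζ) ξ := by
    intro ζ
    have m2 : Measurable (fun ξ : ℂ => ξ - ζ) := measurable_id.sub_const ζ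
    have b1 : Measurable (fun ξ : ℂ => g ξ (ξ - ζ)) := mg.comp (measurable_id.prodMk m2)
    have m6 : Measurable (fun ξ => a ξ * a (ξ - ζ) *
        (k ξ (ξ - ζ) * H ξ + k (ξ - ζ) ξ * H (ξ - ζ))) := by
      have c1' : Measurable (fun ξ : ℂ => k ξ (ξ - ζ)) := hk.comp (measurable_id.prodMk m2)
      have c2' : Measurable (fun ξ : ℂ => k (ξ - ζ) ξ) := hk.comp (m2.prodMk measurable_id)
      exact (ha.mul (ha.comp m2)).mul ((c1'.mul hH).add (c2'.mul (hH.comp m2)))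
    rw [← lintegral_const_mul _ m6, ← lintegral_add_left b1]
    refine lintegral_congr fun ξ => ?_
    have e1 : ξ - (ξ - ζ) = ζ := by ring
    have e2 : ξ - ζ - ξ = -ζ := by ring
    simp only [hg]
    rw [e1, e2, hws]
    ring
  have mA1 : Measurable (fun q : ℂ × ℂ => g q.2 (q.2 - q.1)) :=
    mg.comp (measurable_snd.prodMk (measurable_snd.sub measurable_fst))
  have h1 : ∫⁻ ζ, ∫⁻ ξ, g ξ (ξ - ζ) = ∫⁻ ξ, ∫⁻ η, g ξ η := by
    rw [lintegral_lintegral_swap mA1.aemeasurable]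
    refine lintegral_congr fun ξ => ?_
    exact lintegral_sub_left_eq_self (fun η => g ξ η) ξ
  have h2 : ∫⁻ ζ, ∫⁻ ξ, g (ξ - ζ) ξ = ∫⁻ ξ, ∫⁻ η, g ξ η := by
    have e : ∀ ζ, ∫⁻ ξ, g (ξ - ζ) ξ = ∫⁻ ξ, g ξ (ξ + ζ) := by
      intro ζ
      have := lintegral_add_right_eq_self (μ := (volume : Measure ℂ)) (fun ξ => g (ξ - ζ) ξ) ζ
      rw [← this]
      refine lintegral_congr fun ξ => ?_
      rw [add_sub_cancel_right]
    simp_rw [e]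
    have mA3 : Measurable (fun q : ℂ × ℂ => g q.2 (q.2 + q.1)) :=
      mg.comp (measurable_snd.prodMk (measurable_snd.add measurable_fst))
    rw [lintegral_lintegral_swap mA3.aemeasurable]
    refine lintegral_congr fun ξ => ?_
    exact lintegral_add_left_eq_self (fun η => g ξ η) ξ
  calc ∫⁻ ζ, w ζ * ∫⁻ ξ, a ξ * a (ξ - ζ) * (k ξ (ξ - ζ) * H ξ + k (ξ - ζ) ξ * H (ξ - ζ))
      = ∫⁻ ζ, ((∫⁻ ξ, g ξ (ξ - ζ)) + ∫⁻ ξ, g (ξ - ζ) ξ) := lintegral_congr hsplit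
    _ = (∫⁻ ζ, ∫⁻ ξ, g ξ (ξ - ζ)) + ∫⁻ ζ, ∫⁻ ξ, g (ξ - ζ) ξ :=
        lintegral_add_left mA1.lintegral_prod_right' _
    _ = _ := by rw [h1, h2, hR, two_mul]

/-- `∫ |ζ|^{-2/K} E(ζ) dζ` -/
theorem Ef_int (K : ℕ) (hK : 2 ≤ K) (β : ℝ) (hβ : 0 < β) (W : ℝ → ℝ) (hW : Adm β W)
    (c1 c2 : ℝ) (hc1 : 0 < c1) (Ψ : ℂ → ℝ) (hΨ : Measurable Ψ) (hAc : Continuous (Aw β W)) :
    ∫⁻ ζ, ‖ζ‖ₑ ^ (-(2 / (K:ℝ))) * Ef c1 c2 Ψ K β W ζ =
      ENNReal.ofReal (Gc (2 - 2 / (K:ℝ)) / Real.pi ^ 2 * cW K β W) *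
        ∫⁻ ξ, om K ξ * ‖ξ‖ₑ ^ (-(1 / (K:ℝ))) * HH c1 c2 Ψ K ξ := by
  have mom := om_measK K
  have mHH := HH_measK c1 c2 hΨ K
  have mk : Measurable (Function.uncurry (fun ξ η : ℂ => ENNReal.ofReal (1 / 2 * Aw β W (rk K ξ η)))) :=
    ((hAc.measurable.comp (rk_measK K)).const_mul _).ennreal_ofReal
  have h := sym_int (om K) (HH c1 c2 Ψ K) (fun ζ => ‖ζ‖ₑ ^ (-(2 / (K:ℝ))))
    (fun ξ η : ℂ => ENNReal.ofReal (1 / 2 * Aw β W (rk K ξ η))) mom mHH (by fun_prop) mk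
    (fun ζ => by simp only [enorm_neg])
  unfold Ef
  refine h.trans ?_
  rw [← lintegral_const_mul' _ _ ENNReal.ofReal_ne_top, ← lintegral_const_mul' _ _ (by norm_num)]
  refine lintegral_congr fun ξ => ?_
  by_cases hξ : ξ = 0
  · have h0 : HH c1 c2 Ψ K ξ = 0 := by
      unfold HH
      rw [Set.indicator_of_notMem]
      unfold Ann
      simp only [Set.mem_ofPred_eq, not_and_or, not_le]
      left
      rw [hξ, norm_zero]
      exact hc1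
    rw [h0]
    simp
  · rw [E_half K hK β hβ W hW ξ hξ]
    have : (2:ℝ≥0∞) * ENNReal.ofReal (1 / 2) = 1 := by
      rw [show (2:ℝ≥0∞) = ENNReal.ofReal 2 by norm_num, ← ENNReal.ofReal_mul (by norm_num)]
      norm_num
    generalize ENNReal.ofReal (1 / 2) = q at this
    generalize ENNReal.ofReal (Gc (2 - 2 / (K:ℝ)) / Real.pi ^ 2 * cW K β W) = c
    calc 2 * (om K ξ * HH c1 c2 Ψ K ξ * (q * (c * ‖ξ‖ₑ ^ (-(1 / (K:ℝ))))))
        = (2 * q) * (c * (om K ξ * ‖ξ‖ₑ ^ (-(1 / (K:ℝ))) * HH c1 c2 Ψ K ξ)) := by ring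
      _ = _ := by rw [this, one_mul]

theorem om_HH (K : ℕ) (hK : 2 ≤ K) (c1 c2 : ℝ) (hc1 : 0 < c1) (Ψ : ℂ → ℝ) :
    ∫⁻ ξ, om K ξ * ‖ξ‖ₑ ^ (-(1 / (K:ℝ))) * HH c1 c2 Ψ K ξ =
      ∫⁻ ξ in Ann c1 c2, ENNReal.ofReal ((‖ξ‖ ^ 4)⁻¹ * Ψ ξ ^ (2 * K)) := by
  rw [← lintegral_indicator (Ann_measK c1 c2)]
  refine lintegral_congr fun ξ => ?_
  unfold HH
  by_cases hξ : ξ ∈ Ann c1 c2
  · rw [Set.indicator_of_mem hξ, Set.indicator_of_mem hξ]
    have hn : 0 < ‖ξ‖ := hc1.trans_le hξ.1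
    unfold om
    rw [← ofReal_norm ξ, ENNReal.ofReal_rpow_of_pos hn, ← ENNReal.ofReal_mul (by positivity),
      ← ENNReal.ofReal_mul (by positivity)]
    congr 1
    rw [← Real.rpow_add hn]
    have e : 1 / (K:ℝ) - 2 + -(1 / (K:ℝ)) = -((2:ℕ):ℝ) := by push_cast; ring
    rw [e, Real.rpow_neg hn.le, Real.rpow_natCast]
    have : ‖ξ‖ ≠ 0 := hn.ne'
    field_simp
  · rw [Set.indicator_of_notMem hξ, Set.indicator_of_notMem hξ, mul_zero]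

theorem cW_nonneg (K : ℕ) (β : ℝ) (W : ℝ → ℝ) (hW : Adm β W) : 0 ≤ cW K β W :=
  integral_nonneg fun τ => mul_nonneg (hW.nonneg τ) (by positivity)

theorem key_sharp {Y : Type*} [MeasurableSpace Y] (ν : Measure Y) [IsFiniteMeasure ν] (K : ℕ)
    (hK : 2 ≤ K) (β : ℝ) (hβ : 0 < β) (W : ℝ → ℝ) (hW : Adm β W) (c1 c2 : ℝ) (U : ℂ → Y → ℂ)
    (Ψ : ℂ → ℝ) (hU : UD ν c1 c2 U Ψ) :
    ∫⁻ x : ℂ, (∫⁻ τ : ℝ, ENNReal.ofReal (W τ) *
        ∫⁻ y, ‖uW U Ψ (-(I * ((β * τ : ℝ) : ℂ))) x y‖ₑ ^ 2 ∂ν) ^ K ≤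
    ENNReal.ofReal (cW K β W ^ K / Real.pi ^ 2) *
      ∫⁻ ξ in Ann c1 c2, ENNReal.ofReal ((‖ξ‖ ^ 4)⁻¹ * Ψ ξ ^ (2 * K)) := by
  obtain ⟨hWh, hAw, -, hWc, hAc, -, -⟩ := Wh_ptw β hβ W hW
  have := muW_fin hW
  have hK0 : (0:ℝ) < K := by
    have : (2:ℝ) ≤ K := by exact_mod_cast hK
    linarith
  have hpi := Real.pi_pos
  -- step 1: rewrite with the measure on `ℝ × Y`
  have hmeasW : Measurable (fun τ : ℝ => ENNReal.ofReal (W τ)) := hW.cont.measurable.ennreal_ofReal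
  have e1 : ∀ x : ℂ, ∫⁻ τ : ℝ, ENNReal.ofReal (W τ) *
        ∫⁻ y, ‖uW U Ψ (-(I * ((β * τ : ℝ) : ℂ))) x y‖ₑ ^ 2 ∂ν =
      ∫⁻ t, ‖∫ ξ : ℂ, ch x ξ * Um β U Ψ ξ t‖ₑ ^ 2 ∂((muW W).prod ν) := by
    intro x
    have hm : Measurable (fun t : ℝ × Y => ‖∫ ξ : ℂ, ch x ξ * Um β U Ψ ξ t‖ₑ ^ 2) := by
      have h := (K6.uW_meas ν c1 c2 U Ψ hU β).comp
        ((measurable_fst.prodMk (measurable_const (a := x))).prodMk measurable_snd :
          Measurable (fun t : ℝ × Y => ((t.1, x), t.2)))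
      exact h.enorm.pow_const 2
    rw [lintegral_prod _ hm.aemeasurable, muW,
      lintegral_withDensity_eq_lintegral_mul _ hmeasW hm.lintegral_prod_right']
    rfl
  simp_rw [e1]
  -- step 2: the convolution power
  obtain ⟨C, hC⟩ := hU.bdd
  have s1 := sq_le_lcp ((muW W).prod ν) K hK (Um β U Ψ) (Um_meas hU β)
    ⟨C, fun ξ t => by rw [Um_norm]; exact hC ξ t.2⟩ c2
    (fun ξ t h => by unfold Um; rw [hU.supp ξ t.2 (Or.inr h), zero_mul])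
  refine s1.trans ?_
  have s2 : ∀ ζ : ℂ, ∫⁻ ξ, ‖∫ y, Um β U Ψ ξ y * conj (Um β U Ψ (ξ - ζ) y) ∂((muW W).prod ν)‖ₑ ≤
      Rf c1 c2 Ψ β W ζ := fun ζ => lintegral_mono fun ξ => Um_inner hU β W hW hWh ξ (ξ - ζ)
  refine (lcp_monoK s2 (K - 1) 0).trans ?_
  refine (pitt_int K hK _ (Rf_meas c1 c2 hU.Ψmeas β W hWc)).trans ?_
  -- step 3
  have hG : 0 < Gc (2 / (K:ℝ)) := Helper72.BA.P.Gc_pos (by positivity) (by
    rw [div_lt_iff₀ hK0]
    have : (2:ℝ) ≤ K := by exact_mod_cast hK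
    linarith)
  have hG2 : 0 < Gc (2 - 2 / (K:ℝ)) := by
    have h1 : 2 / (K:ℝ) ≤ 1 := by
      rw [div_le_one hK0]; exact_mod_cast hK
    have h2 : 0 < 2 / (K:ℝ) := by positivity
    exact Helper72.BA.P.Gc_pos (by linarith) (by linarith)
  have hcW := cW_nonneg K β W hW
  have s3 : ∫⁻ ζ, ‖ζ‖ₑ ^ (2 * K - 4) * Rf c1 c2 Ψ β W ζ ^ K ≤
      ENNReal.ofReal ((cW K β W / Gc (2 / (K:ℝ))) ^ (K - 1)) *
        ∫⁻ ζ, ‖ζ‖ₑ ^ (-(2 / (K:ℝ))) * Ef c1 c2 Ψ K β W ζ := by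
    rw [← lintegral_const_mul' _ _ ENNReal.ofReal_ne_top]
    apply lintegral_mono_ae
    have h0 : ∀ᵐ ζ : ℂ, ζ ≠ 0 := by
      rw [ae_iff]
      simp
    filter_upwards [h0] with ζ hζ
    have h := R_holder K hK β hβ W hW c1 c2 hU.c1pos Ψ hU.Ψmeas (UDpos hU) ζ
    rw [Theta_eval K hK β hβ W hW ζ hζ] at h
    have hζ0 : ‖ζ‖ₑ ≠ 0 := by simpa using hζ
    have hζt : ‖ζ‖ₑ ≠ ∞ := by simp
    calc ‖ζ‖ₑ ^ (2 * K - 4) * Rf c1 c2 Ψ β W ζ ^ K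
        ≤ ‖ζ‖ₑ ^ (2 * K - 4) * ((ENNReal.ofReal (cW K β W / Gc (2 / (K:ℝ))) *
            ‖ζ‖ₑ ^ (2 / (K:ℝ) - 2)) ^ (K - 1) * Ef c1 c2 Ψ K β W ζ) := mul_le_mul_right h _
      _ = ENNReal.ofReal ((cW K β W / Gc (2 / (K:ℝ))) ^ (K - 1)) *
          ((‖ζ‖ₑ ^ (2 * K - 4) * (‖ζ‖ₑ ^ (2 / (K:ℝ) - 2)) ^ (K - 1)) * Ef c1 c2 Ψ K β W ζ) := by
          rw [mul_pow, ENNReal.ofReal_pow (by positivity)]
          ring
      _ = _ := by
          congr 2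
          rw [← ENNReal.rpow_natCast, ← ENNReal.rpow_natCast (_ ^ _) (K - 1), ← ENNReal.rpow_mul,
            ← ENNReal.rpow_add _ _ hζ0 hζt]
          congr 1
          rw [Nat.cast_sub (by omega), Nat.cast_sub (by omega)]
          push_cast
          field_simp
          ring
  refine (mul_le_mul_right s3 _).trans ?_
  rw [Ef_int K hK β hβ W hW c1 c2 hU.c1pos Ψ hU.Ψmeas hAc, om_HH K hK c1 c2 hU.c1pos Ψ,
    ← mul_assoc, ← mul_assoc, ← ENNReal.ofReal_mul (by positivity),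
    ← ENNReal.ofReal_mul (by positivity)]
  refine mul_le_mul_left (ENNReal.ofReal_le_ofReal (le_of_eq ?_)) _
  have hrefl := Gc_refl (2 / (K:ℝ)) (by positivity) (by
    rw [div_lt_iff₀ hK0]
    have : (2:ℝ) ≤ K := by exact_mod_cast hK
    linarith)
  obtain ⟨m, rfl⟩ : ∃ m, K = m + 1 := ⟨K - 1, by omega⟩
  rw [Nat.add_sub_cancel]
  set g := Gc (2 / ((m + 1 : ℕ):ℝ)) with hg
  set g' := Gc (2 - 2 / ((m + 1 : ℕ):ℝ)) with hg'
  set c := cW (m + 1) β W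
  have : g' = Real.pi ^ 2 / g := by
    rw [eq_div_iff hG.ne', mul_comm]
    exact hrefl
  rw [this, div_pow]
  field_simp
  ring

end Helper72.BQ.P
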