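import Pool.Agent.Helper72.BQM.Pitt
import Pool.Agent.Helper72.BQM.Q8a
import Pool.Agent.Helper72.BQM.Q8b
import Pool.Agent.Helper72.BQM.Q8c
import Pool.Agent.Helper85.BPM.Main

/-!
MP_3dd6d4_an, BQ (helper72): sharp asymptotic bound for all exponents, uniformly on `[2, P]`.
-/

set_option autoImplicit false

open MeasureTheory Complex FourierTransform Filter Topology
open scoped ENNReal NNReal ComplexConjugate

noncomputable section

namespace Helper72.BQ.P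

open Helper72.BA Helper85.BP Helper85.BP.P

/-- `(1/q)_n / (1/p)_n` -/
def rat (p : ℝ) (n : ℕ) : ℝ :=
  (∏ i ∈ Finset.range n, ((1 - 1 / p) + i)) / (∏ i ∈ Finset.range n, (1 / p + i))

theorem node_irr (b : ℝ) (hb : 2 < b) (hi : Irrational b) (η : ℝ) (hη : 0 < η) :
    Node b (Real.log (Ap b) + η) := by
  have hA := Ap_pos b (by linarith)
  refine node_real b hb (Ap b) _ hA (pitt_irr b hb hi) ?_
  rw [Real.exp_add, Real.exp_log hA]
  have : 1 < Real.exp η := Real.one_lt_exp_iff.2 hη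
  nlinarith

/-- interpolation between two nodes -/
theorem seg_gen (p0 p1 c0 c1 : ℝ) (h0 : 2 ≤ p0) (h01 : p0 < p1) (N0 : Node p0 c0)
    (N1 : Node p1 c1) :
    ∃ N : ℕ, ∀ n : ℕ, N ≤ n → ∀ p t : ℝ, 0 ≤ t → t ≤ 1 → 1 / p = (1 - t) / p0 + t / p1 →
    ∀ f : SchwartzMap ℂ ℂ,
    eLpNorm (fun z => Tn n f z) (ENNReal.ofReal p) volume ≤
      ENNReal.ofReal (Real.exp (c0 * (1 - t) + c1 * t) * (n:ℝ) ^ (1 - 2 / p)) *
        eLpNorm (fun z => f z) (ENNReal.ofReal p) volume := by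
  obtain ⟨n0, h0'⟩ := N0
  obtain ⟨n1, h1'⟩ := N1
  refine ⟨max (max n0 n1) 1, fun n hn p t ht0 ht1 hpt f => ?_⟩
  have hn0 : n0 ≤ n := (le_trans (le_max_left _ _) (le_max_left _ _)).trans hn
  have hn1 : n1 ≤ n := (le_trans (le_max_right _ _) (le_max_left _ _)).trans hn
  have hn2 : 1 ≤ n := (le_max_right _ _).trans hn
  have hn' : (0:ℝ) < n := by exact_mod_cast hn2
  have hp0 : 0 < p0 := by linarith
  have hp1 : 0 < p1 := by linarith
  have hinv : 0 < 1 / p := by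
    rw [hpt]
    rcases ht0.eq_or_lt with h | h
    · rw [← h]; simp; positivity
    · have : 0 ≤ (1 - t) / p0 := div_nonneg (by linarith) hp0.le
      have : 0 < t / p1 := by positivity
      linarith
  have hp : 0 < p := one_div_pos.mp hinv
  have hp1' : 1 ≤ p := by
    have h3 : (1 - t) / p0 ≤ (1 - t) / 2 :=
      div_le_div_of_nonneg_left (by linarith) (by norm_num) h0
    have h4 : t / p1 ≤ t / 2 :=
      div_le_div_of_nonneg_left ht0 (by norm_num) (by linarith)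
    have h5 : 1 / p ≤ 1 := by rw [hpt]; linarith
    rwa [div_le_one hp] at h5
  have hK : Real.exp (c0 * (1 - t) + c1 * t) * (n:ℝ) ^ (1 - 2 / p) =
      (Real.exp c0 * (n:ℝ) ^ (1 - 2 / p0)) ^ (1 - t) * (Real.exp c1 * (n:ℝ) ^ (1 - 2 / p1)) ^ t := by
    rw [Real.mul_rpow (Real.exp_pos _).le (by positivity),
      Real.mul_rpow (Real.exp_pos _).le (by positivity), ← Real.exp_mul, ← Real.exp_mul,
      ← Real.rpow_mul hn'.le, ← Real.rpow_mul hn'.le]
    have e3 : (n:ℝ) ^ ((1 - 2 / p0) * (1 - t)) * (n:ℝ) ^ ((1 - 2 / p1) * t)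
        = (n:ℝ) ^ (1 - 2 / p) := by
      rw [← Real.rpow_add hn']
      congr 1
      have e4 : 2 / p = 2 * (1 / p) := by ring
      rw [e4, hpt]
      ring
    rw [Real.exp_add, ← e3]
    ring
  have key : ∀ (M : ℕ) (f : ℂ → ℂ), Nice f →
      ∫⁻ z, ‖gW n (Finset.Ico (-M : ℤ) M) f z‖ₑ ^ p ≤
      ENNReal.ofReal ((Real.exp (c0 * (1 - t) + c1 * t) * (n:ℝ) ^ (1 - 2 / p)) ^ p) *
        ∫⁻ z, ‖f z‖ₑ ^ p := by
    intro M f hf
    have k1 := Helper72.BA.P.RTS (gW n (Finset.Ico (-M : ℤ) M))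
      (fun f hf => (Helper72.BA.P.nice_gW n _ hf).meas)
      (fun f g hf hg => Helper72.BA.P.gW_add n _ hf hg) (fun c f _ => Helper72.BA.P.gW_smul n _ f c)
      p0 p1 (by linarith) h01 (Real.exp c0 * (n:ℝ) ^ (1 - 2 / p0))
      (Real.exp c1 * (n:ℝ) ^ (1 - 2 / p1)) (by positivity) (by positivity)
      (fun f hf => h0' n hn0 hn2 M f hf) (fun f hf => h1' n hn1 hn2 M f hf) t p ht0 ht1 hpt f hf
    rw [hK]
    exact k1
  have h1 := Helper72.BA.P.limit_schwartz n p hp1' _ key f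
  exact Helper72.BA.P.to_eLpNorm _ _ p _ hp (by positivity) h1

/-- the statement on a set of exponents -/
def Bnd (ε : ℝ) (S : Set ℝ) : Prop :=
  ∃ N : ℕ, ∀ n : ℕ, N ≤ n → ∀ p ∈ S, 2 ≤ p → ∀ f : SchwartzMap ℂ ℂ,
    eLpNorm (fun z => Tn n f z) (ENNReal.ofReal p) volume ≤
      ENNReal.ofReal (Real.exp (ε * (p - 2)) * rat p n) *
        eLpNorm (fun z => f z) (ENNReal.ofReal p) volume

/-- comparison of `A_p n^{1-2/p}` with the ratio -/
theorem rat_lower (ε : ℝ) (hε : 0 < ε) : ∃ N : ℕ, ∀ n : ℕ, N ≤ n → ∀ p : ℝ, 2 ≤ p →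
    Ap p * (n:ℝ) ^ (1 - 2 / p) ≤ Real.exp (ε / 2 * (p - 2)) * rat p n := by
  obtain ⟨N, hN⟩ := exists_nat_ge (1 / ε)
  refine ⟨max N 1, fun n hn p hp => ?_⟩
  have hn1 : 1 ≤ n := (le_max_right _ _).trans hn
  have hn' : (1:ℝ) ≤ n := by exact_mod_cast hn1
  have hnN : (N:ℝ) ≤ n := by exact_mod_cast (le_max_left _ _).trans hn
  have hne : 1 / ε ≤ n := hN.trans hnN
  have h := (poch_ratio p hp n hn1).1
  have hp0 : 0 < p := by linarith
  have hE : (1 - 2 / p) / n ≤ ε / 2 * (p - 2) := by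
    have e1 : 1 - 2 / p = (p - 2) / p := by field_simp
    have e2 : (p - 2) / p ≤ (p - 2) / 2 :=
      div_le_div_of_nonneg_left (by linarith) (by norm_num) hp
    have e3 : 1 / (n:ℝ) ≤ ε := by
      rw [div_le_iff₀ (by positivity)]
      rw [div_le_iff₀ hε] at hne
      linarith
    calc (1 - 2 / p) / n = (p - 2) / p * (1 / n) := by rw [e1]; ring
      _ ≤ (p - 2) / 2 * ε := mul_le_mul e2 e3 (by positivity) (by linarith)
      _ = ε / 2 * (p - 2) := by ring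
  unfold rat
  set r := (∏ i ∈ Finset.range n, ((1 - 1 / p) + i)) / (∏ i ∈ Finset.range n, (1 / p + (i:ℝ)))
  have hr : 0 ≤ r := by
    refine le_trans ?_ h
    have := (Ap_pos p (by linarith)).le
    positivity
  calc Ap p * (n:ℝ) ^ (1 - 2 / p)
      = Real.exp ((1 - 2 / p) / n) * (Ap p * (n:ℝ) ^ (1 - 2 / p) * Real.exp (-((1 - 2 / p) / n))) := by
        rw [Real.exp_neg]
        have := (Real.exp_pos ((1 - 2 / p) / n)).ne'
        field_simp
    _ ≤ Real.exp (ε / 2 * (p - 2)) * r := by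
        apply mul_le_mul (Real.exp_le_exp.2 hE) h _ (Real.exp_pos _).le
        have := (Ap_pos p (by linarith)).le
        positivity

/-- the interpolation parameter -/
theorem param (p0 p1 p : ℝ) (h0 : 0 < p0) (h01 : p0 < p1) (ha : p0 ≤ p) (hb : p ≤ p1) :
    ∃ t : ℝ, 0 ≤ t ∧ t ≤ 1 ∧ 1 / p = (1 - t) / p0 + t / p1 ∧
      t * (1 / p0 - 1 / p1) = 1 / p0 - 1 / p := by
  have hp : 0 < p := by linarith
  have i01 : 1 / p1 < 1 / p0 := one_div_lt_one_div_of_lt h0 h01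
  have hd : 0 < 1 / p0 - 1 / p1 := by linarith
  have ia : 1 / p ≤ 1 / p0 := one_div_le_one_div_of_le h0 ha
  have ib : 1 / p1 ≤ 1 / p := one_div_le_one_div_of_le hp hb
  have hte : (1 / p0 - 1 / p) / (1 / p0 - 1 / p1) * (1 / p0 - 1 / p1) = 1 / p0 - 1 / p :=
    div_mul_cancel₀ _ hd.ne'
  refine ⟨(1 / p0 - 1 / p) / (1 / p0 - 1 / p1), div_nonneg (by linarith) hd.le, ?_, ?_, hte⟩
  · rw [div_le_one hd]; linarith
  · have e : (1 - (1 / p0 - 1 / p) / (1 / p0 - 1 / p1)) / p0 +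
        (1 / p0 - 1 / p) / (1 / p0 - 1 / p1) / p1 =
        1 / p0 - (1 / p0 - 1 / p) / (1 / p0 - 1 / p1) * (1 / p0 - 1 / p1) := by ring
    rw [e, hte]
    ring

theorem local_two (ε : ℝ) (hε : 0 < ε) : ∃ b : ℝ, 2 < b ∧ Bnd ε (Set.Icc 2 b) := by
  obtain ⟨b0, hb0, hb⟩ := Ap_near_two (ε / 4) (by positivity)
  obtain ⟨b, hbi, hb2, hbb⟩ := exists_irrational_btwn hb0
  refine ⟨b, hb2, ?_⟩
  have hbp : 0 < b := by linarith
  have hb2' : 0 < b - 2 := by linarith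
  set η : ℝ := ε * (b - 2) / (2 * b) with hη
  have hη0 : 0 < η := by positivity
  obtain ⟨N1, h1⟩ := seg_gen 2 b 0 (Real.log (Ap b) + η) le_rfl hb2 node_two
    (node_irr b hb2 hbi η hη0)
  obtain ⟨N2, h2⟩ := rat_lower ε hε
  refine ⟨max N1 N2, fun n hn p hp hp2 f => ?_⟩
  obtain ⟨t, ht0, ht1, hpt, hte⟩ := param 2 b p (by norm_num) hb2 hp.1 hp.2
  refine (h1 n ((le_max_left _ _).trans hn) p t ht0 ht1 hpt f).trans ?_
  refine mul_le_mul_left (ENNReal.ofReal_le_ofReal ?_) _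
  have hA := Ap_pos b (by linarith)
  have hAp := Ap_pos p (by linarith)
  have hnear := hb b hb2 hbb.le p t hp.1 hp.2 hpt
  have hp0 : 0 < p := by linarith
  have htη : t * η ≤ ε / 4 * (p - 2) := by
    -- `t = (1/2 - 1/p) / (1/2 - 1/b)`
    have e1 : t * ((b - 2) / (2 * b)) = (p - 2) / (2 * p) := by
      have e2 : (b - 2) / (2 * b) = 1 / 2 - 1 / b := by field_simp
      have e3 : (p - 2) / (2 * p) = 1 / 2 - 1 / p := by field_simp
      rw [e2, e3, hte]
    have e4 : (p - 2) / (2 * p) ≤ (p - 2) / 4 :=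
      div_le_div_of_nonneg_left (by linarith) (by norm_num) (by linarith)
    calc t * η = ε * (t * ((b - 2) / (2 * b))) := by rw [hη]; ring
      _ = ε * ((p - 2) / (2 * p)) := by rw [e1]
      _ ≤ ε * ((p - 2) / 4) := mul_le_mul_of_nonneg_left e4 hε.le
      _ = ε / 4 * (p - 2) := by ring
  have e5 : Real.exp (0 * (1 - t) + (Real.log (Ap b) + η) * t) = (Ap b) ^ t * Real.exp (t * η) := by
    rw [Real.rpow_def_of_pos hA, ← Real.exp_add]
    congr 1
    ring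
  rw [e5]
  have hnn : 0 ≤ (n:ℝ) ^ (1 - 2 / p) := by positivity
  calc (Ap b) ^ t * Real.exp (t * η) * (n:ℝ) ^ (1 - 2 / p)
      ≤ (Ap p * Real.exp (ε / 4 * (p - 2))) * Real.exp (ε / 4 * (p - 2)) * (n:ℝ) ^ (1 - 2 / p) := by
        apply mul_le_mul_of_nonneg_right _ hnn
        exact mul_le_mul hnear (Real.exp_le_exp.2 htη) (Real.exp_pos _).le (by positivity)
    _ = Real.exp (ε / 2 * (p - 2)) * (Ap p * (n:ℝ) ^ (1 - 2 / p)) := by
        have : Real.exp (ε / 2 * (p - 2)) = Real.exp (ε / 4 * (p - 2)) * Real.exp (ε / 4 * (p - 2)) := by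
          rw [← Real.exp_add]; congr 1; ring
        rw [this]; ring
    _ ≤ Real.exp (ε / 2 * (p - 2)) * (Real.exp (ε / 2 * (p - 2)) * rat p n) :=
        mul_le_mul_of_nonneg_left (h2 n ((le_max_right _ _).trans hn) p hp2) (Real.exp_pos _).le
    _ = Real.exp (ε * (p - 2)) * rat p n := by
        rw [← mul_assoc, ← Real.exp_add]
        congr 2
        ring

theorem cont_L (x : ℝ) (hx : 1 < x) : ContinuousAt (fun y => Real.log (Ap y)) x := by
  have hx0 : 0 < x := by linarith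
  have h1 : 0 < 1 / x := by positivity
  have h2 : 0 < 1 - 1 / x := by
    have : 1 / x < 1 := by rw [div_lt_one hx0]; exact hx
    linarith
  have g : ∀ s : ℝ, 0 < s → ContinuousAt Real.Gamma s := fun s hs =>
    (Real.differentiableAt_Gamma (fun m h => by
      have : (0:ℝ) ≤ m := Nat.cast_nonneg m
      linarith)).continuousAt
  have c1 : ContinuousAt (fun y : ℝ => 1 / y) x := ContinuousAt.div continuousAt_const continuousAt_id hx0.ne'
  have c2 : ContinuousAt (fun y : ℝ => Real.Gamma (1 / y)) x :=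
    ContinuousAt.comp (f := fun y : ℝ => 1 / y) (g _ h1) c1
  have c3 : ContinuousAt (fun y : ℝ => Real.Gamma (1 - 1 / y)) x :=
    ContinuousAt.comp (f := fun y : ℝ => 1 - 1 / y) (g _ h2) (continuousAt_const.sub c1)
  have c4 : ContinuousAt Ap x := c2.div c3 (Real.Gamma_pos_of_pos h2).ne'
  exact c4.log (Ap_pos x hx).ne'

theorem local_gt (ε : ℝ) (hε : 0 < ε) (x : ℝ) (hx : 2 < x) :
    ∃ a b : ℝ, a < x ∧ x < b ∧ Bnd ε (Set.Icc a b) := by
  have hx2 : 0 < x - 2 := by linarith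
  set ρ : ℝ := ε * (x - 2) / 16 with hρ
  have hρ0 : 0 < ρ := by positivity
  have hc := cont_L x (by linarith)
  rw [Metric.continuousAt_iff] at hc
  obtain ⟨r, hr, hrr⟩ := hc ρ hρ0
  set r' : ℝ := min r ((x - 2) / 2) with hr'
  have hr'0 : 0 < r' := lt_min hr (by linarith)
  have hr'1 : r' ≤ r := min_le_left _ _
  have hr'2 : r' ≤ (x - 2) / 2 := min_le_right _ _
  obtain ⟨a, hai, ha1, ha2⟩ := exists_irrational_btwn (show x - r' < x by linarith)
  obtain ⟨b, hbi, hb1, hb2⟩ := exists_irrational_btwn (show x < x + r' by linarith)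
  refine ⟨a, b, ha2, hb1, ?_⟩
  have ha : 2 < a := by linarith
  have hb : 2 < b := by linarith
  obtain ⟨N1, h1⟩ := seg_gen a b (Real.log (Ap a) + ρ) (Real.log (Ap b) + ρ) ha.le (by linarith)
    (node_irr a ha hai ρ hρ0) (node_irr b hb hbi ρ hρ0)
  obtain ⟨N2, h2⟩ := rat_lower ε hε
  refine ⟨max N1 N2, fun n hn p hp hp2 f => ?_⟩
  obtain ⟨t, ht0, ht1, hpt, hte⟩ := param a b p (by linarith) (by linarith) hp.1 hp.2
  refine (h1 n ((le_max_left _ _).trans hn) p t ht0 ht1 hpt f).trans ?_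
  refine mul_le_mul_left (ENNReal.ofReal_le_ofReal ?_) _
  have hAp := Ap_pos p (by linarith [hp.1])
  have hL : ∀ y, a ≤ y → y ≤ b → |Real.log (Ap y) - Real.log (Ap x)| < ρ := by
    intro y hy1 hy2
    have hd : dist y x < r := by
      rw [Real.dist_eq, abs_lt]
      constructor <;> linarith
    have := hrr hd
    rwa [Real.dist_eq] at this
  have La := (abs_lt.1 (hL a le_rfl (by linarith))).2
  have Lb := (abs_lt.1 (hL b (by linarith) le_rfl)).2
  have Lp := (abs_lt.1 (hL p hp.1 hp.2)).1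
  have hnn : 0 ≤ (n:ℝ) ^ (1 - 2 / p) := by positivity
  have hexp : (Real.log (Ap a) + ρ) * (1 - t) + (Real.log (Ap b) + ρ) * t ≤
      Real.log (Ap p) + ε / 2 * (p - 2) := by
    have e1 : (Real.log (Ap a) + ρ) * (1 - t) ≤ (Real.log (Ap x) + 2 * ρ) * (1 - t) :=
      mul_le_mul_of_nonneg_right (by linarith) (by linarith)
    have e2 : (Real.log (Ap b) + ρ) * t ≤ (Real.log (Ap x) + 2 * ρ) * t :=
      mul_le_mul_of_nonneg_right (by linarith) ht0
    have e3 : (Real.log (Ap x) + 2 * ρ) * (1 - t) + (Real.log (Ap x) + 2 * ρ) * t =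
        Real.log (Ap x) + 2 * ρ := by ring
    have e4 : 3 * ρ ≤ ε / 2 * (p - 2) := by
      have e5 : (x - 2) / 2 ≤ p - 2 := by linarith [hp.1]
      have e6 := mul_le_mul_of_nonneg_left e5 (by positivity : 0 ≤ ε / 2)
      have e7 : 3 * ρ ≤ ε / 2 * ((x - 2) / 2) := by
        rw [hρ]
        have : 0 < ε * (x - 2) := by positivity
        nlinarith
      linarith
    linarith
  calc Real.exp ((Real.log (Ap a) + ρ) * (1 - t) + (Real.log (Ap b) + ρ) * t) * (n:ℝ) ^ (1 - 2 / p)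
      ≤ Real.exp (Real.log (Ap p) + ε / 2 * (p - 2)) * (n:ℝ) ^ (1 - 2 / p) :=
        mul_le_mul_of_nonneg_right (Real.exp_le_exp.2 hexp) hnn
    _ = Real.exp (ε / 2 * (p - 2)) * (Ap p * (n:ℝ) ^ (1 - 2 / p)) := by
        rw [Real.exp_add, Real.exp_log hAp]; ring
    _ ≤ Real.exp (ε / 2 * (p - 2)) * (Real.exp (ε / 2 * (p - 2)) * rat p n) :=
        mul_le_mul_of_nonneg_left (h2 n ((le_max_right _ _).trans hn) p hp2) (Real.exp_pos _).le
    _ = Real.exp (ε * (p - 2)) * rat p n := by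
        rw [← mul_assoc, ← Real.exp_add]
        congr 2
        ring

theorem Bnd_mono {ε : ℝ} {S T : Set ℝ} (h : S ⊆ T) (hT : Bnd ε T) : Bnd ε S := by
  obtain ⟨N, hN⟩ := hT
  exact ⟨N, fun n hn p hp => hN n hn p (h hp)⟩

theorem Bnd_union {ε : ℝ} {S T : Set ℝ} (hS : Bnd ε S) (hT : Bnd ε T) : Bnd ε (S ∪ T) := by
  obtain ⟨N, hN⟩ := hS
  obtain ⟨M, hM⟩ := hT
  refine ⟨max N M, fun n hn p hp => ?_⟩
  rcases hp with hp | hp
  · exact hN n ((le_max_left _ _).trans hn) p hp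
  · exact hM n ((le_max_right _ _).trans hn) p hp

/-- the sharp asymptotic bound, uniformly on `[2, P]` -/
theorem sharp_all (ε : ℝ) (hε : 0 < ε) (P : ℝ) : Bnd ε (Set.Icc 2 P) := by
  refine isCompact_Icc.induction_on (p := Bnd ε) ⟨0, fun n _ p hp => absurd hp (Set.notMem_empty p)⟩
    (fun S T h hT => Bnd_mono h hT) (fun S T hS hT => Bnd_union hS hT) ?_
  intro x hx
  rcases hx.1.eq_or_lt with h | h
  · obtain ⟨b, hb, hB⟩ := local_two ε hε
    refine ⟨Set.Icc 2 b, ?_, hB⟩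
    rw [← h]
    refine mem_nhdsWithin.2 ⟨Set.Iio b, isOpen_Iio, hb, fun y hy => ⟨hy.2.1, (Set.mem_Iio.1 hy.1).le⟩⟩
  · obtain ⟨a, b, ha, hb, hB⟩ := local_gt ε hε x h
    exact ⟨Set.Icc a b, mem_nhdsWithin_of_mem_nhds (Icc_mem_nhds ha hb), hB⟩

/-- the bound of Q1 for large `n`, uniformly on `[2, P]` -/
theorem question_one (P : ℝ) : ∃ N : ℕ, ∀ n : ℕ, N ≤ n → ∀ p : ℝ, 2 ≤ p → p ≤ P →
    ∀ f : SchwartzMap ℂ ℂ,
    eLpNorm (fun z => Tn n f z) (ENNReal.ofReal p) volume ≤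
      ENNReal.ofReal ((n:ℝ) ^ (1 - 2 / p) * (p - 1)) *
        eLpNorm (fun z => f z) (ENNReal.ofReal p) volume := by
  obtain ⟨ε, hε, hA⟩ := Ap_lt (max P 3) (lt_of_lt_of_le (by norm_num) (le_max_right _ _))
  obtain ⟨N1, h1⟩ := sharp_all (ε / 2) (by positivity) P
  obtain ⟨N2, hN2⟩ := exists_nat_ge (1 / ε)
  refine ⟨max (max N1 N2) 1, fun n hn p hp2 hpP f => ?_⟩
  have hnN1 : N1 ≤ n := (le_trans (le_max_left _ _) (le_max_left _ _)).trans hn
  have hnN2 : N2 ≤ n := (le_trans (le_max_right _ _) (le_max_left _ _)).trans hn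
  have hn1 : 1 ≤ n := (le_max_right _ _).trans hn
  have hn' : (1:ℝ) ≤ n := by exact_mod_cast hn1
  have hne : 1 / ε ≤ n := hN2.trans (by exact_mod_cast hnN2)
  refine (h1 n hnN1 p ⟨hp2, hpP⟩ hp2 f).trans ?_
  refine mul_le_mul_left (ENNReal.ofReal_le_ofReal ?_) _
  have hp0 : 0 < p := by linarith
  have hup := (poch_ratio p hp2 n hn1).2
  have hApp := Ap_pos p (by linarith)
  have hE : (1 - 2 / p) / n ≤ ε / 2 * (p - 2) := by
    have e1 : 1 - 2 / p = (p - 2) / p := by field_simp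
    have e2 : (p - 2) / p ≤ (p - 2) / 2 :=
      div_le_div_of_nonneg_left (by linarith) (by norm_num) hp2
    have e3 : 1 / (n:ℝ) ≤ ε := by
      rw [div_le_iff₀ (by positivity)]
      rw [div_le_iff₀ hε] at hne
      linarith
    calc (1 - 2 / p) / n = (p - 2) / p * (1 / n) := by rw [e1]; ring
      _ ≤ (p - 2) / 2 * ε := mul_le_mul e2 e3 (by positivity) (by linarith)
      _ = ε / 2 * (p - 2) := by ring
  have hnn : 0 ≤ (n:ℝ) ^ (1 - 2 / p) := by positivity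
  calc Real.exp (ε / 2 * (p - 2)) * rat p n
      ≤ Real.exp (ε / 2 * (p - 2)) * (Ap p * (n:ℝ) ^ (1 - 2 / p) * Real.exp ((1 - 2 / p) / n)) :=
        mul_le_mul_of_nonneg_left hup (Real.exp_pos _).le
    _ ≤ Real.exp (ε / 2 * (p - 2)) * (Ap p * (n:ℝ) ^ (1 - 2 / p) * Real.exp (ε / 2 * (p - 2))) := by
        apply mul_le_mul_of_nonneg_left _ (Real.exp_pos _).le
        apply mul_le_mul_of_nonneg_left (Real.exp_le_exp.2 hE) (by positivity)
    _ = (n:ℝ) ^ (1 - 2 / p) * (Ap p * Real.exp (ε * (p - 2))) := by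
        have : Real.exp (ε * (p - 2)) = Real.exp (ε / 2 * (p - 2)) * Real.exp (ε / 2 * (p - 2)) := by
          rw [← Real.exp_add]; congr 1; ring
        rw [this]; ring
    _ ≤ (n:ℝ) ^ (1 - 2 / p) * (p - 1) :=
        mul_le_mul_of_nonneg_left (hA p hp2 (hpP.trans (le_max_left _ _))) hnn

end Helper72.BQ.P
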