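import Pool.Agent.Helper72.BQM.C

/-!
MP_3dd6d4_an, BQ (helper72): the sharp Pitt inequality for every irrational exponent `p > 2`.
-/

set_option autoImplicit false

open MeasureTheory Complex FourierTransform Filter Topology
open scoped ENNReal NNReal ComplexConjugate

noncomputable section

namespace Helper72.BQ.P

open Helper72.BA Helper85.BP Helper85.BP.P

theorem pitt_sharp (k : ℕ) (hk : 1 ≤ k) (θ : ℝ) (h0 : 0 < θ) (h1 : θ < 1) (p : ℝ)
    (hp : 1 / p = (1 - θ) / (2 * k) + θ / (2 * k + 2)) : HasPitt p (Ap p) := by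
  intro ν hν U hU ⟨C, hC⟩ ⟨c1, c2, hc1, hs⟩
  have hk1 : (1:ℝ) ≤ k := by exact_mod_cast hk
  have h1θ : 0 < 1 - θ := by linarith
  have hinv : 0 < 1 / p := by rw [hp]; positivity
  have hp0 : 0 < p := one_div_pos.mp hinv
  set K : ℝ := Real.pi ^ (p - 2) * Ap p ^ p with hK
  have hlim := S_tendsto (ν := ν) p hp0 U hU C hC c1 c2 hc1
  have haux : ∀ η : ℝ, 0 < η → ∫⁻ x, (uH ν U x) ^ p ≤ ENNReal.ofReal K *
      ∫⁻ ξ in Ann c1 c2, ENNReal.ofReal ((‖ξ‖ ^ 4)⁻¹ * (‖ξ‖ ^ 2 * VV ν U ξ + η) ^ p) := by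
    intro η hη
    apply exhaust _ _ hp0
    intro N hN
    exact core_sharp k hk θ h0 h1 p hp (UD_Psi (ν := ν) U hU C hC c1 c2 hc1 hs η hη) N hN
  have hle : ∫⁻ x, (uH ν U x) ^ p ≤ ENNReal.ofReal K *
      ∫⁻ ξ in Ann c1 c2, ENNReal.ofReal ((‖ξ‖ ^ 4)⁻¹ * (‖ξ‖ ^ 2 * VV ν U ξ) ^ p) :=
    ge_of_tendsto' (ENNReal.Tendsto.const_mul hlim (Or.inr ENNReal.ofReal_ne_top)) fun n =>
      haux (1 / (n + 1 : ℝ)) (by positivity)
  refine hle.trans (mul_le_mul_right ?_ _)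
  refine le_trans (setLIntegral_mono' (measurableSet_Ann c1 c2) (fun ξ hξ => ?_))
    (setLIntegral_le_lintegral (Ann c1 c2) _)
  have hn : 0 < ‖ξ‖ := hc1.trans_le hξ.1
  have hV : 0 ≤ VV ν U ξ := Real.sqrt_nonneg _
  rw [int_eq U C hC ξ, ← ofReal_norm, ENNReal.ofReal_rpow_of_pos hn,
    ENNReal.ofReal_rpow_of_nonneg (by positivity) (by positivity), ← ENNReal.ofReal_mul (by positivity)]
  apply ENNReal.ofReal_le_ofReal
  apply le_of_eq
  rw [Real.mul_rpow (by positivity) hV, ← Real.rpow_natCast (VV ν U ξ) 2, ← Real.rpow_mul hV,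
    ← Real.rpow_natCast ‖ξ‖ 2, ← Real.rpow_mul hn.le, ← Real.rpow_natCast ‖ξ‖ 4,
    ← Real.rpow_neg hn.le, ← mul_assoc, ← Real.rpow_add hn]
  congr 2
  · push_cast
    ring
  · push_cast
    ring

theorem pitt_irr (p : ℝ) (hp : 2 < p) (hi : Irrational p) : HasPitt p (Ap p) := by
  set k : ℕ := ⌊p / 2⌋₊ with hk
  have hp0 : 0 ≤ p / 2 := by linarith
  have h1 : (k : ℝ) ≤ p / 2 := Nat.floor_le hp0
  have h2 : p / 2 < k + 1 := Nat.lt_floor_add_one _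
  have hk1 : 1 ≤ k := by
    rw [hk, Nat.one_le_floor_iff]
    linarith
  have hk1' : (1:ℝ) ≤ k := by exact_mod_cast hk1
  have hne : (2 * k : ℝ) ≠ p := by
    intro h
    have h3 : ((2 * k : ℕ) : ℝ) = p := by push_cast; exact h
    exact hi.ne_nat (2 * k) h3.symm
  have hlt : (2 * k : ℝ) < p := lt_of_le_of_ne (by linarith) hne
  have hp' : 0 < p := by linarith
  have i1 : 1 / p < 1 / (2 * k : ℝ) := one_div_lt_one_div_of_lt (by positivity) hlt
  have i2 : 1 / (2 * k + 2 : ℝ) < 1 / p := one_div_lt_one_div_of_lt hp' (by linarith)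
  set d : ℝ := 1 / (2 * k : ℝ) - 1 / (2 * k + 2 : ℝ) with hd
  have hd0 : 0 < d := by linarith
  refine pitt_sharp k hk1 ((1 / (2 * k : ℝ) - 1 / p) / d) (div_pos (by linarith) hd0) (by
    rw [div_lt_one hd0]; linarith) p ?_
  have e : (1 / (2 * k : ℝ) - 1 / p) / d * d = 1 / (2 * k : ℝ) - 1 / p := div_mul_cancel₀ _ hd0.ne'
  have e2 : (1 - (1 / (2 * k : ℝ) - 1 / p) / d) / (2 * k) +
      (1 / (2 * k : ℝ) - 1 / p) / d / (2 * k + 2) =
      1 / (2 * k : ℝ) - (1 / (2 * k : ℝ) - 1 / p) / d * d := by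
    rw [hd]; ring
  rw [e2, e]
  ring

end Helper72.BQ.P
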