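import Pool.Agent.Helper72.BQ.Defs
import Pool.Agent.Helper85.BS_W

/-!
# BQ modules Q6a, Q6b (MP_3dd6d4_an, helper85)
-/

set_option autoImplicit false

open MeasureTheory Complex FourierTransform Filter Topology
open scoped ENNReal NNReal ComplexConjugate

noncomputable section

namespace Helper72.BQ.P

open Helper72.BA Helper85.BP Helper72.BQ

theorem PD_P (θ m : ℝ) (h0 : 0 < θ) (h1 : θ < 1) (hm : m = 1 ∨ 2 ≤ m) :
    PD (fun τ => (m ^ 2 + τ ^ 2) ^ 2 * P1 θ τ) := by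
  have hm1 : 1 ≤ m := by
    rcases hm with h | h
    · exact h.ge
    · linarith
  have hs : 0 < Real.sin (Real.pi * θ) := by
    apply Real.sin_pos_of_pos_of_lt_pi
    · positivity
    · nlinarith [Real.pi_pos]
  have g1 := Helper85.BS.PD_pair m 1 one_pos hm1
  have g := Helper85.BP.P.PD_smul (Real.sin (Real.pi * θ) / 2) (by positivity)
    (Helper85.BP.P.PD_mul (Helper85.BP.P.PD_mul (Helper85.BP.P.PD_mul g1 g1) Helper85.BS.PD_zero)
      (Helper85.BS.PD_cosh θ h0 h1))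
  convert g using 2 with t
  have hD := Helper85.BP.P.W2_den_pos θ t h0 h1
  have hC : 0 < 1 + Real.cosh (Real.pi * t) := by
    have := Real.cosh_pos (Real.pi * t)
    linarith
  have ht : (0:ℝ) < 1 ^ 2 + t ^ 2 := by positivity
  unfold P1
  have e1 : (1:ℝ) ^ 2 + t ^ 2 = 1 + t ^ 2 := by ring
  rw [e1] at ht ⊢
  field_simp

theorem PD_beta (a c : ℝ) (ha : 0 < a) (ha1 : a < 1) :
    PD (fun τ => (‖Complex.Gamma (((1 - a : ℝ) : ℂ) + I * ((c * τ : ℝ) : ℂ))‖ /
      ‖Complex.Gamma (((1 + a : ℝ) : ℂ) + I * ((c * τ : ℝ) : ℂ))‖) ^ 2) := by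
  have h := Helper85.BS.PD_rat (1 - a) (1 + a) c (by linarith) (by linarith)
  unfold Helper85.BS.rat at h
  simpa only [div_pow] using h

end Helper72.BQ.P
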